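import Mathlib

/-! The explicit polynomial time language (elementary description). -/

namespace Pool.Agent.JT

/-- block length: a word of length `N` carries `x` of length `n = N / (k * M + 2)` and `k`
coefficients of length `M * n` (and at least one more bit if `n > 0`) -/
def blk (k M : ℕ) (w : List Bool) : ℕ := w.length / (k * M + 2)

/-- coefficient of `X^i` in the polynomial `x(X)` -/
def xb (k M : ℕ) (w : List Bool) (i : ℕ) : ℕ :=
  if i < blk k M w then (w.getD i false).toNat else 0

/-- coefficient of `X^i` in the `j`-th coefficient polynomial -/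
def ab (k M : ℕ) (w : List Bool) (j i : ℕ) : ℕ :=
  if i < M * blk k M w then (w.getD (blk k M w + j * (M * blk k M w) + i) false).toNat else 0

/-- coefficient of `X^c` in `x(X)^j` modulo 2 -/
def pw (k M : ℕ) (w : List Bool) : ℕ → ℕ → ℕ
  | 0, c => if c = 0 then 1 else 0
  | j + 1, c => (∑ i ∈ Finset.range (c + 1), xb k M w i * pw k M w j (c - i)) % 2

/-- coefficient of `X^c` in `∑ j < k, a_j(X) x(X)^j` modulo 2 -/
def vl (k M : ℕ) (w : List Bool) (c : ℕ) : ℕ :=
  (∑ j ∈ Finset.range k, ∑ i ∈ Finset.range (c + 1), ab k M w j i * pw k M w j (c - i)) % 2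

/-- the language: an even number of ones, and the top `n / Δ` coefficients vanish -/
def lang (k M Δ : ℕ) (w : List Bool) : Prop :=
  (∑ i ∈ Finset.range w.length, (w.getD i false).toNat) % 2 = 0 ∧
    ∀ c < blk k M w / Δ, vl k M w (M * blk k M w - 1 - c) = 0

instance (k M Δ : ℕ) : DecidablePred (lang k M Δ) := fun w => by
  unfold lang; infer_instance

/-- bits as elements of the field with two elements -/
def zb (b : Bool) : ZMod 2 := if b then 1 else 0

end Pool.Agent.JT
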