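import Pool.Agent.JT.Hash
import Pool.Agent.JT.LangDefs
import Pool.Agent.SemRO.Hash

/-! Existence of seeds for which the hash condition defines a dense rectangle-free set. -/

namespace Pool.Agent.JT

open PowerSeries (coeff)
open Pool.Agent.SemRO (mix RectFree Sensitive flip_card even_card)

/-- the hash condition -/
def HC {n m k : ℕ} (l : ℕ) (a : Fin k → Fin m → Bool) (x : Fin n → Bool) : Prop :=
  ∀ c < l, coeff (m - 1 - c) (pval (fun j i => zb (a j i)) (fun i => zb (x i))) = 0

/-- an even number of ones -/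
def EvenW {n : ℕ} (x : Fin n → Bool) : Prop := Even (Finset.univ.filter (fun i => x i = true)).card

/-- the rectangle-free set -/
def FS {n m k : ℕ} (l : ℕ) (a : Fin k → Fin m → Bool) : Set (Fin n → Bool) :=
  {x | EvenW x ∧ HC l a x}

lemma FS_sensitive {n m k : ℕ} (l : ℕ) (a : Fin k → Fin m → Bool) :
    Sensitive (FS (n := n) l a) := by
  intro z hz i hcon
  exact (flip_card z i).mp hcon.1 hz.1

lemma zb_inj {b c : Bool} (h : zb b = zb c) : b = c := by
  revert h; revert b c; decide

/-- bits are elements of the field -/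
def zbE : Bool ≃ ZMod 2 where
  toFun := zb
  invFun z := decide (z = 1)
  left_inv := by decide
  right_inv := by decide

open Classical in
lemma card_bool {k m : ℕ} (P : (Fin k → Fin m → ZMod 2) → Prop) :
    (Finset.univ.filter (fun a : Fin k → Fin m → Bool => P (fun j i => zb (a j i)))).card =
      (Finset.univ.filter P).card := by
  let e : (Fin k → Fin m → Bool) ≃ (Fin k → Fin m → ZMod 2) :=
    Equiv.piCongrRight fun _ => Equiv.piCongrRight fun _ => zbE
  refine Finset.card_bij (fun a _ => e a) ?_ ?_ ?_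
  · intro a ha
    exact Finset.mem_filter.2 ⟨Finset.mem_univ _, (Finset.mem_filter.1 ha).2⟩
  · intro a _ b _ hab
    exact e.injective hab
  · intro b hb
    refine ⟨e.symm b, Finset.mem_filter.2 ⟨Finset.mem_univ _, ?_⟩, e.apply_symm_apply b⟩
    have h1 : (fun j i => zb (e.symm b j i)) = b := e.apply_symm_apply b
    rw [h1]
    exact (Finset.mem_filter.1 hb).2

open Classical in
lemma count_k {n m k l : ℕ} (hm : n * k * k + l ≤ m) (x : Fin k → Fin n → Bool)
    (hx : Function.Injective x) :
    (Finset.univ.filter (fun a : Fin k → Fin m → Bool => ∀ i, HC l a (x i))).card * 2 ^ (l * k) =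
      2 ^ (k * m) := by
  let f : (Fin k → Fin m → ZMod 2) →+ (Fin k → Fin l → ZMod 2) :=
    { toFun := fun a i c => coeff (m - 1 - c) (pval a (fun s => zb (x i s)))
      map_zero' := by
        funext i c
        simp only [pval, Pi.zero_apply]
        have : ser (0 : Fin m → ZMod 2) = 0 := by
          ext i; rw [coeff_ser]; split_ifs <;> simp
        simp [this]
      map_add' := by
        intro a b
        funext i c
        simp only [Pi.add_apply, pval_add, map_add] }
  have hf : Function.Surjective f := by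
    intro y
    obtain ⟨a, ha⟩ := pval_surj hm (fun i s => zb (x i s)) (by
      intro i j hij
      apply hx
      funext s
      exact zb_inj (congrFun hij s)) y
    exact ⟨a, funext fun i => funext fun c => ha i c⟩
  have h1 := card_ker f hf
  rw [Fintype.card_fun, Fintype.card_fun, Fintype.card_fun, Fintype.card_fun, ZMod.card,
    Fintype.card_fin, Fintype.card_fin, Fintype.card_fin, ← pow_mul, ← pow_mul] at h1
  rw [mul_comm k m, ← h1]
  congr 1
  rw [← card_bool (fun a => f a = 0)]
  congr 1
  ext a
  simp only [Finset.mem_filter, Finset.mem_univ, true_and]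
  constructor
  · intro h
    funext i c
    exact h i c c.2
  · intro h i c hc
    exact congrFun (congrFun h i) ⟨c, hc⟩

open Classical in
lemma count_one {n m k l : ℕ} (hk : 0 < k) (hm : l ≤ m) (x : Fin n → Bool) :
    (Finset.univ.filter (fun a : Fin k → Fin m → Bool => HC l a x)).card * 2 ^ l =
      2 ^ (k * m) := by
  let f : (Fin k → Fin m → ZMod 2) →+ (Fin l → ZMod 2) :=
    { toFun := fun a c => coeff (m - 1 - c) (pval a (fun s => zb (x s)))
      map_zero' := by
        funext c
        simp only [pval, Pi.zero_apply]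
        have : ser (0 : Fin m → ZMod 2) = 0 := by
          ext i; rw [coeff_ser]; split_ifs <;> simp
        simp [this]
      map_add' := by
        intro a b
        funext c
        simp only [Pi.add_apply, pval_add, map_add] }
  have hf : Function.Surjective f := by
    intro y
    let b : Fin m → ZMod 2 := fun i => if h : m - 1 - i < l then y ⟨m - 1 - i, h⟩ else 0
    refine ⟨fun j => if j = ⟨0, hk⟩ then b else 0, funext fun c => ?_⟩
    change coeff (m - 1 - c) (pval _ _) = y c
    unfold pval
    rw [Finset.sum_eq_single (⟨0, hk⟩ : Fin k)]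
    · dsimp only
      rw [if_pos rfl, pow_zero, mul_one, coeff_ser]
      have hc := c.2
      rw [dif_pos (by omega)]
      simp only [b]
      rw [dif_pos (by omega)]
      congr 1
      apply Fin.ext
      change m - 1 - (m - 1 - (c : ℕ)) = c
      omega
    · intro j _ hj
      dsimp only
      rw [if_neg hj]
      have : ser (0 : Fin m → ZMod 2) = 0 := by
        ext i; rw [coeff_ser]; split_ifs <;> simp
      rw [this, zero_mul]
    · intro h; exact absurd (Finset.mem_univ _) h
  have h1 := card_ker f hf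
  rw [Fintype.card_fun, Fintype.card_fun, Fintype.card_fun, ZMod.card,
    Fintype.card_fin, Fintype.card_fin, Fintype.card_fin, ← pow_mul] at h1
  rw [mul_comm k m, ← h1]
  congr 1
  rw [← card_bool (fun a => f a = 0)]
  congr 1
  ext a
  simp only [Finset.mem_filter, Finset.mem_univ, true_and]
  constructor
  · intro h
    funext c
    exact h c c.2
  · intro h c hc
    exact congrFun h ⟨c, hc⟩

lemma mix_inj {n t : ℕ} {A : Finset (Fin n)} {u v : Fin t → Fin n → Bool}
    (hu : ∀ i j, i ≠ j → ∃ x ∈ A, u i x ≠ u j x) (hv : ∀ i j, i ≠ j → ∃ x, x ∉ A ∧ v i x ≠ v j x) :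
    Function.Injective (fun s : Fin (t * t) =>
      mix A (u (finProdFinEquiv.symm s).1) (v (finProdFinEquiv.symm s).2)) := by
  intro s s' h
  have h1 : (finProdFinEquiv.symm s).1 = (finProdFinEquiv.symm s').1 := by
    by_contra hne
    obtain ⟨x, hx, hne'⟩ := hu _ _ hne
    have := congrFun h x
    simp only [mix, hx, if_true] at this
    exact hne' this
  have h2 : (finProdFinEquiv.symm s).2 = (finProdFinEquiv.symm s').2 := by
    by_contra hne
    obtain ⟨x, hx, hne'⟩ := hv _ _ hne
    have := congrFun h x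
    simp only [mix, hx, if_false] at this
    exact hne' this
  exact finProdFinEquiv.symm.injective (Prod.ext h1 h2)

open Classical in
/-- few seeds give a set with a rectangle -/
theorem bad_seeds (t n l m : ℕ) (hm : n * (t * t) * (t * t) + l ≤ m) :
    (Finset.univ.filter (fun a : Fin (t * t) → Fin m → Bool =>
      ¬ RectFree {x : Fin n → Bool | HC l a x} t)).card * 2 ^ (l * (t * t)) ≤
      2 ^ (n * (2 * t + 1)) * 2 ^ (t * t * m) := by
  set Bd := Finset.univ.filter (fun a : Fin (t * t) → Fin m → Bool =>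
    ¬ RectFree {x : Fin n → Bool | HC l a x} t) with hBd
  let Tr := Finset (Fin n) × (Fin t → Fin n → Bool) × (Fin t → Fin n → Bool)
  have hTr : Fintype.card Tr = 2 ^ (n * (2 * t + 1)) := by
    simp only [Tr, Fintype.card_prod, Fintype.card_finset, Fintype.card_fun, Fintype.card_bool,
      Fintype.card_fin]
    rw [← pow_mul, ← pow_add, ← pow_add]
    congr 1
    ring
  let Val : Finset Tr := Finset.univ.filter (fun ρ =>
    (∀ i j, i ≠ j → ∃ x ∈ ρ.1, ρ.2.1 i x ≠ ρ.2.1 j x) ∧
    (∀ i j, i ≠ j → ∃ x, x ∉ ρ.1 ∧ ρ.2.2 i x ≠ ρ.2.2 j x))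
  have hsub : Bd ⊆ Val.biUnion (fun ρ => Finset.univ.filter (fun a : Fin (t * t) → Fin m → Bool =>
      ∀ s : Fin (t * t), HC l a (mix ρ.1 (ρ.2.1 (finProdFinEquiv.symm s).1)
        (ρ.2.2 (finProdFinEquiv.symm s).2)))) := by
    intro a ha
    have ha' := (Finset.mem_filter.1 ha).2
    unfold RectFree at ha'
    push Not at ha'
    obtain ⟨S, u, v, hu, hv, hF⟩ := ha'
    refine Finset.mem_biUnion.2 ⟨(S, u, v), Finset.mem_filter.2 ⟨Finset.mem_univ _, hu, hv⟩,
      Finset.mem_filter.2 ⟨Finset.mem_univ _, fun s => hF _ _⟩⟩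
  calc Bd.card * 2 ^ (l * (t * t)) ≤ (∑ ρ ∈ Val, (Finset.univ.filter
        (fun a : Fin (t * t) → Fin m → Bool =>
          ∀ s : Fin (t * t), HC l a (mix ρ.1 (ρ.2.1 (finProdFinEquiv.symm s).1)
        (ρ.2.2 (finProdFinEquiv.symm s).2)))).card) * 2 ^ (l * (t * t)) :=
        Nat.mul_le_mul_right _ ((Finset.card_le_card hsub).trans Finset.card_biUnion_le)
    _ = ∑ ρ ∈ Val, 2 ^ (t * t * m) := by
        rw [Finset.sum_mul]
        refine Finset.sum_congr rfl fun ρ hρ => ?_
        obtain ⟨_, hu, hv⟩ := Finset.mem_filter.1 hρ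
        exact count_k hm _ (mix_inj hu hv)
    _ = Val.card * 2 ^ (t * t * m) := by rw [Finset.sum_const, smul_eq_mul]
    _ ≤ 2 ^ (n * (2 * t + 1)) * 2 ^ (t * t * m) := by
        apply Nat.mul_le_mul_right
        rw [← hTr]
        exact Finset.card_le_univ _

open Classical in
/-- There is a seed for which the set is rectangle-free and large. -/
theorem exists_seed (t n l m : ℕ) (ht : 0 < t) (hn : 0 < n)
    (hm : n * (t * t) * (t * t) + l ≤ m) (hl : n * (2 * t + 1) + l + 2 < l * (t * t)) :
    ∃ a : Fin (t * t) → Fin m → Bool, RectFree (FS (n := n) l a) t ∧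
      2 ^ n ≤ 2 ^ (l + 2) * (Finset.univ.filter (fun x => x ∈ FS (n := n) l a)).card := by
  by_contra hcon
  push Not at hcon
  set A := 2 ^ (t * t * m) with hA
  have hApos : 0 < A := by positivity
  have hcardA : Fintype.card (Fin (t * t) → Fin m → Bool) = A := by
    rw [Fintype.card_fun, Fintype.card_fun, Fintype.card_bool, Fintype.card_fin, Fintype.card_fin,
      ← pow_mul, hA, mul_comm m]
  -- double counting
  have h1 : 2 ^ n * A ≤ 2 ^ (l + 1) *
      ∑ a : Fin (t * t) → Fin m → Bool, (Finset.univ.filter (fun x => x ∈ FS (n := n) l a)).card := by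
    have e1 : ∑ a : Fin (t * t) → Fin m → Bool,
        (Finset.univ.filter (fun x => x ∈ FS (n := n) l a)).card =
        ∑ x ∈ Finset.univ.filter (fun x : Fin n → Bool => EvenW x),
          (Finset.univ.filter (fun a : Fin (t * t) → Fin m → Bool => HC l a x)).card := by
      simp only [Finset.card_filter]
      rw [Finset.sum_comm, Finset.sum_filter]
      refine Finset.sum_congr rfl fun x _ => ?_
      by_cases hx : EvenW x
      · rw [if_pos hx]
        refine Finset.sum_congr rfl fun a _ => ?_
        simp only [FS, Set.mem_ofPred_eq, hx, true_and]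
      · rw [if_neg hx]
        apply Finset.sum_eq_zero
        intro a _
        rw [if_neg]
        exact fun h => hx h.1
    have e2 : 2 ^ l * ∑ x ∈ Finset.univ.filter (fun x : Fin n → Bool => EvenW x),
        (Finset.univ.filter (fun a : Fin (t * t) → Fin m → Bool => HC l a x)).card =
        (Finset.univ.filter (fun x : Fin n → Bool => EvenW x)).card * A := by
      rw [Finset.mul_sum, Finset.sum_congr rfl (g := fun _ => A), Finset.sum_const, smul_eq_mul]
      intro x _
      rw [mul_comm]
      exact count_one (by positivity) (by omega) x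
    have e3 : 2 ^ n ≤ 2 * (Finset.univ.filter (fun x : Fin n → Bool => EvenW x)).card := by
      convert even_card n hn using 4
      unfold EvenW
      exact Iff.rfl
    rw [e1, pow_succ, mul_comm (2 ^ l) 2, mul_assoc, e2, ← mul_assoc]
    exact Nat.mul_le_mul_right _ e3
  -- seeds with a rectangle
  set Bd := Finset.univ.filter (fun a : Fin (t * t) → Fin m → Bool => ¬ RectFree (FS (n := n) l a) t)
    with hBd
  have h2 : 2 ^ (l + 2) * ∑ a : Fin (t * t) → Fin m → Bool,
      (Finset.univ.filter (fun x => x ∈ FS (n := n) l a)).card ≤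
      2 ^ (l + 2) * 2 ^ n * Bd.card + 2 ^ n * A := by
    rw [Finset.mul_sum, ← Finset.sum_filter_add_sum_filter_not Finset.univ
      (fun a : Fin (t * t) → Fin m → Bool => ¬ RectFree (FS (n := n) l a) t)]
    apply add_le_add
    · rw [← hBd, mul_comm (2 ^ (l + 2) * 2 ^ n) Bd.card, ← smul_eq_mul Bd.card, ← Finset.sum_const]
      refine Finset.sum_le_sum fun a _ => ?_
      apply Nat.mul_le_mul_left
      refine (Finset.card_le_univ _).trans ?_
      rw [Fintype.card_fun, Fintype.card_bool, Fintype.card_fin]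
    · calc _ ≤ ∑ _a ∈ Finset.univ.filter (fun a : Fin (t * t) → Fin m → Bool =>
            ¬¬ RectFree (FS (n := n) l a) t), 2 ^ n :=
            Finset.sum_le_sum fun a ha => (hcon a (not_not.1 (Finset.mem_filter.1 ha).2)).le
        _ ≤ ∑ _a : Fin (t * t) → Fin m → Bool, 2 ^ n :=
            Finset.sum_le_sum_of_subset (Finset.filter_subset _ _)
        _ = 2 ^ n * A := by
            rw [Finset.sum_const, smul_eq_mul, Finset.card_univ, hcardA, mul_comm]
  have h3 : Bd.card * 2 ^ (l * (t * t)) ≤ 2 ^ (n * (2 * t + 1)) * A := by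
    refine le_trans (Nat.mul_le_mul_right _ (Finset.card_le_card ?_)) (bad_seeds t n l m hm)
    intro a ha
    refine Finset.mem_filter.2 ⟨Finset.mem_univ _, fun h => (Finset.mem_filter.1 ha).2 ?_⟩
    exact Pool.Agent.SemRO.RectFree.mono h fun x hx => hx.2
  -- combine
  generalize (∑ a : Fin (t * t) → Fin m → Bool,
      (Finset.univ.filter (fun x => x ∈ FS (n := n) l a)).card) = Sg at h1 h2
  have h4 : 2 * (2 ^ n * A) ≤ 2 ^ (l + 2) * Sg := by
    calc 2 * (2 ^ n * A) ≤ 2 * (2 ^ (l + 1) * Sg) := Nat.mul_le_mul_left _ h1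
      _ = 2 ^ (l + 2) * Sg := by ring
  have h5 : 2 ^ n * A ≤ 2 ^ (l + 2) * 2 ^ n * Bd.card := by omega
  have h6 : 2 ^ (n + l * (t * t)) * A ≤ 2 ^ (l + 2 + n + n * (2 * t + 1)) * A := by
    calc 2 ^ (n + l * (t * t)) * A = (2 ^ n * A) * 2 ^ (l * (t * t)) := by rw [pow_add]; ring
      _ ≤ (2 ^ (l + 2) * 2 ^ n * Bd.card) * 2 ^ (l * (t * t)) := Nat.mul_le_mul_right _ h5
      _ = 2 ^ (l + 2) * 2 ^ n * (Bd.card * 2 ^ (l * (t * t))) := by ring
      _ ≤ 2 ^ (l + 2) * 2 ^ n * (2 ^ (n * (2 * t + 1)) * A) := Nat.mul_le_mul_left _ h3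
      _ = 2 ^ (l + 2 + n + n * (2 * t + 1)) * A := by
          rw [pow_add 2 (l + 2 + n), pow_add 2 (l + 2) n]; ring
  have h7 := Nat.le_of_mul_le_mul_right h6 hApos
  have h8 := (Nat.pow_le_pow_iff_right (by norm_num)).1 h7
  omega

end Pool.Agent.JT
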