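import Pool.Agent.JT.PTime
import Pool.Agent.JT.Hash2

/-! Slices of the language: fixing all bits outside the first block. -/

namespace Pool.Agent.JT

lemma ofFn_getD {N : ℕ} (y : Fin N → Bool) (i : ℕ) (hi : i < N) :
    (List.ofFn y).getD i false = y ⟨i, hi⟩ := by
  rw [List.getD_eq_getElem _ _ (by simpa using hi)]
  simp

lemma sum_ofFn {N : ℕ} (y : Fin N → Bool) :
    ∑ i ∈ Finset.range (List.ofFn y).length, ((List.ofFn y).getD i false).toNat =
      ∑ i : Fin N, (y i).toNat := by
  rw [List.length_ofFn, ← Fin.sum_univ_eq_sum_range]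
  refine Finset.sum_congr rfl fun i _ => ?_
  rw [ofFn_getD y i i.2]

lemma evenW_iff {n : ℕ} (x : Fin n → Bool) : EvenW x ↔ (∑ i, (x i).toNat) % 2 = 0 := by
  unfold EvenW
  rw [Nat.even_iff, Finset.card_filter]
  have : ∑ i, (if x i = true then 1 else 0) = ∑ i, (x i).toNat := by
    refine Finset.sum_congr rfl fun i _ => ?_
    cases x i <;> rfl
  rw [this]

/-- the language is sensitive in every variable -/
lemma lang_sensitive (k M Δ : ℕ) {N : ℕ} (y : Fin N → Bool) (i : Fin N)
    (h : lang k M Δ (List.ofFn y)) : ¬ lang k M Δ (List.ofFn (Function.update y i (!y i))) := by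
  intro h'
  have h1 := h.1
  have h2 := h'.1
  rw [sum_ofFn] at h1 h2
  rw [← Finset.add_sum_erase _ _ (Finset.mem_univ i)] at h1 h2
  have h3 : ∑ j ∈ Finset.univ.erase i, (Function.update y i (!y i) j).toNat =
      ∑ j ∈ Finset.univ.erase i, (y j).toNat := by
    refine Finset.sum_congr rfl fun j hj => ?_
    rw [Function.update_of_ne (Finset.ne_of_mem_erase hj)]
  rw [h3, Function.update_self] at h2
  cases hy : y i <;> rw [hy] at h1 h2 <;> simp at h1 h2 <;> omega

theorem slice (k M Δ N n : ℕ) (hN : N / (k * M + 2) = n) (hn : 0 < n)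
    (a : Fin k → Fin (M * n) → Bool) :
    ∃ base : Fin N → Bool, ∀ x : Fin n → Bool,
      (lang k M Δ (List.ofFn fun i : Fin N => if h : (i : ℕ) < n then x ⟨i, h⟩ else base i) ↔
        x ∈ FS (n / Δ) a) := by
  have hNn : n * (k * M + 2) ≤ N := by rw [← hN]; exact Nat.div_mul_le_self _ _
  have hNn' : n + k * (M * n) + n ≤ N := by
    have : n * (k * M + 2) = n + k * (M * n) + n := by ring
    omega
  -- the part of the base outside the last bit
  let b0 : ℕ → Bool := fun i =>
    if h : (i - n) / (M * n) < k ∧ (i - n) % (M * n) < M * n then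
      a ⟨(i - n) / (M * n), h.1⟩ ⟨(i - n) % (M * n), h.2⟩ else false
  let b1 : ℕ → Bool := fun i => if i < n + k * (M * n) then b0 i else false
  let B : ℕ := ∑ i ∈ Finset.Ico n (N - 1), (b1 i).toNat
  let b2 : ℕ → Bool := fun i => if i = N - 1 then decide (B % 2 = 1) else b1 i
  refine ⟨fun i => b2 i, fun x => ?_⟩
  set y : Fin N → Bool := fun i => if h : (i : ℕ) < n then x ⟨i, h⟩ else b2 i with hy
  have hlen : (List.ofFn y).length = N := List.length_ofFn
  have hblk : blk k M (List.ofFn y) = n := by
    unfold blk; rw [hlen, hN]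
  have hx : ∀ i : Fin n, (List.ofFn y).getD i false = x i := by
    intro i
    have hi : (i : ℕ) < N := by have := i.2; omega
    rw [ofFn_getD y i hi, hy]
    simp only
    rw [dif_pos i.2]
  have ha : ∀ (j : Fin k) (i : Fin (M * n)), (List.ofFn y).getD (n + j * (M * n) + i) false = a j i := by
    intro j i
    have hj := j.2
    have hi := i.2
    have hlt : (j : ℕ) * (M * n) + i < k * (M * n) := by
      calc (j : ℕ) * (M * n) + i < (j : ℕ) * (M * n) + M * n := by omega
        _ = (j + 1) * (M * n) := by ring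
        _ ≤ k * (M * n) := Nat.mul_le_mul_right _ hj
    have hlt2 : n + (j : ℕ) * (M * n) + i < N := by omega
    rw [ofFn_getD y _ hlt2, hy]
    simp only
    rw [dif_neg (by omega)]
    simp only [b2]
    rw [if_neg (by omega)]
    simp only [b1]
    rw [if_pos (by omega)]
    have hMn : 0 < M * n := by omega
    have e1 : n + (j : ℕ) * (M * n) + i - n = i + (M * n) * j := by
      have : n + (j : ℕ) * (M * n) + i - n = (j : ℕ) * (M * n) + i := by omega
      rw [this]; ring
    have e2 : (n + (j : ℕ) * (M * n) + i - n) / (M * n) = j := by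
      rw [e1, Nat.add_mul_div_left _ _ hMn, Nat.div_eq_of_lt hi]; omega
    have e3 : (n + (j : ℕ) * (M * n) + i - n) % (M * n) = i := by
      rw [e1, Nat.add_mul_mod_self_left, Nat.mod_eq_of_lt hi]
    simp only [b0]
    rw [dif_pos (by rw [e2, e3]; exact ⟨hj, hi⟩)]
    congr 1
    · congr 1
    · exact Fin.ext e3
  rw [lang_iff k M Δ n _ hblk x a hx ha]
  have hsum : (∑ i ∈ Finset.range (List.ofFn y).length, ((List.ofFn y).getD i false).toNat) % 2 = 0 ↔
      EvenW x := by
    rw [sum_ofFn, evenW_iff]
    have h1 : ∑ i : Fin N, (y i).toNat = ∑ i ∈ Finset.range N,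
        (if h : i < n then x ⟨i, h⟩ else b2 i).toNat := by
      rw [← Fin.sum_univ_eq_sum_range (fun i => (if h : i < n then x ⟨i, h⟩ else b2 i).toNat)]
    have h2 : ∑ i : Fin n, (x i).toNat = ∑ i ∈ Finset.range n,
        (if h : i < n then x ⟨i, h⟩ else b2 i).toNat := by
      rw [← Fin.sum_univ_eq_sum_range (fun i => (if h : i < n then x ⟨i, h⟩ else b2 i).toNat)]
      refine Finset.sum_congr rfl fun i _ => ?_
      rw [dif_pos i.2]
    have h3 : ∑ i ∈ Finset.Ico n N, (if h : i < n then x ⟨i, h⟩ else b2 i).toNat =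
        B + (decide (B % 2 = 1)).toNat := by
      have h4 : Finset.Ico n N = Finset.Ico n ((N - 1) + 1) := by congr 1; omega
      rw [h4, Finset.sum_Ico_succ_top (by omega)]
      congr 1
      · refine Finset.sum_congr rfl fun i hi => ?_
        obtain ⟨hi1, hi2⟩ := Finset.mem_Ico.1 hi
        rw [dif_neg (by omega)]
        simp only [b2]
        rw [if_neg (by omega)]
      · rw [dif_neg (by omega)]
        simp only [b2]
        rw [if_pos trivial]
    rw [h1, h2, ← Finset.sum_range_add_sum_Ico _ (show n ≤ N by omega), h3]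
    generalize ∑ i ∈ Finset.range n, (if h : i < n then x ⟨i, h⟩ else b2 i).toNat = X
    have h5 : (B + (decide (B % 2 = 1)).toNat) % 2 = 0 := by
      rcases Nat.mod_two_eq_zero_or_one B with h | h
      · simp [h]
      · simp [h]; omega
    omega
  rw [hsum]
  exact Iff.rfl

end Pool.Agent.JT
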