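import Pool.Agent.JT.Horn

/-! Lower bound for the number of states of a Horn system computing a sensitive rectangle-free
set by short proof trees. -/

namespace Pool.Agent.JT

open Pool.Agent.SemRO

variable {Q : Type} {n : ℕ}

open Classical in
/-- `count_bound` of the SemRO library with block sizes `κ b` -/
theorem count_bound' (hn : 10 ^ 12 ≤ n) (X : Fin 5 → Set (Fin n → Option Bool))
    (F : Set (Fin n → Bool)) (hsens : Sensitive F) {L : ℕ} (hR : RectFree F L)
    (hXF : ∀ z ∈ Good X, z ∈ F) (κ : Fin 5 → ℕ) (o : ℕ) (hκ : ∑ b, κ b ≤ n + o)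
    (hX : ∀ b, ∀ c ∈ X b, (dom c).card ≤ κ b)
    (hA : ∀ b, b ≠ 4 → (κ b : ℝ) ≤ 1999 / 8000 * n) (he : (κ 4 : ℝ) ≤ 11 / 20000 * n)
    (ho : (o : ℝ) ≤ 1 / 1000000 * n) (hLM : 0 < L * Nsub n o)
    (hM : Real.log ((L * Nsub n o : ℕ) : ℝ) ≤ 1 / 20000 * n) :
    (((Finset.univ.filter (fun z => z ∈ Good X)).card : ℕ) : ℝ) ≤
      Real.exp (n * Real.log 2 - 3.75e-9 * n) := by
  have hsys := sys_of_families X F hsens hXF o (by
    intro c hc
    exact (Finset.sum_le_sum fun b _ => hX b _ (hc b)).trans hκ)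
  rcases (Finset.univ.filter (fun z => z ∈ Good X)).eq_empty_or_nonempty with hE | hne
  · rw [hE]; simp only [Finset.card_empty, Nat.cast_zero]; positivity
  by_contra hcon
  push Not at hcon
  refine core_false hn hsys (F := F) (fun z hz => hXF z (Finset.mem_filter.mp hz).2) hR hne ?_ ?_ ho
    hLM hM ?_
  · intro z hz b hb
    have := hX b _ (firstTerm_spec ((Finset.mem_filter.mp hz).2 b)).1
    exact (Nat.cast_le.mpr this).trans (hA b hb)
  · intro z hz
    have := hX 4 _ (firstTerm_spec ((Finset.mem_filter.mp hz).2 4)).1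
    exact (Nat.cast_le.mpr this).trans he
  · have h1 := Real.log_le_log (Real.exp_pos _) hcon.le
    rwa [Real.log_exp] at h1

/-- the families attached to a sequence of cut states, a grouping and block sizes -/
def Fam5 (H : HS Q (Fin n)) {K : ℕ} (v : Fin K → Q) (γ : Fin K → Fin 5) (κ : Fin 5 → ℕ) :
    Fin 5 → Set (Fin n → Option Bool) :=
  fun b => {c | (dom c).card ≤ κ b ∧ ∀ i, γ i = b → H.PA c (fun q => ∃ j, i < j ∧ v j = q) (v i)}

lemma fam5_sound (H : HS Q (Fin n)) {K : ℕ} (v : Fin K → Q) (γ : Fin K → Fin 5) (κ : Fin 5 → ℕ)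
    {z : Fin n → Bool} (hz : z ∈ Good (Fam5 H v γ κ)) : ∀ i, ∃ l, H.PT z (v i) l := by
  have key : ∀ m : ℕ, ∀ i : Fin K, K ≤ (i : ℕ) + m → ∃ l, H.PT z (v i) l := by
    intro m
    induction m with
    | zero => intro i hi; exact absurd i.2 (by omega)
    | succ m ih =>
      intro i hi
      obtain ⟨c, ⟨_, hc⟩, hs⟩ := hz (γ i)
      refine (hc i rfl).sound hs ?_
      rintro q ⟨j, hj, rfl⟩
      exact ih j (by have : (i : ℕ) < j := hj; omega)
  intro i
  exact key K i (by omega)

lemma chain_get {H : HS Q (Fin n)} {z : Fin n → Bool} :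
    ∀ {ps : List (Q × List (Fin n))}, Chain H z ps → ∀ (i : ℕ) (hi : i < ps.length),
      H.PA (restr (ps[i].2).toFinset z) (fun q => ∃ (j : ℕ) (hj : j < ps.length), i < j ∧ ps[j].1 = q)
        (ps[i].1) := by
  intro ps
  induction ps with
  | nil => intro _ i hi; exact absurd hi (by simp)
  | cons p ps ih =>
    intro h i hi
    cases i with
    | zero =>
      refine h.2.mono (fun _ _ hi => hi) fun q hq => ?_
      obtain ⟨x, hx, rfl⟩ := List.mem_map.1 hq
      obtain ⟨j, hj, rfl⟩ := List.mem_iff_getElem.1 hx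
      exact ⟨j + 1, by simpa using hj, by omega, by simp⟩
    | succ i =>
      have hi' : i < ps.length := by simpa using hi
      refine (ih h.1 i hi').mono (fun _ _ hi => hi) ?_
      rintro q ⟨j, hj, hij, rfl⟩
      exact ⟨j + 1, by simpa using hj, by omega, by simp⟩

lemma tot_eq (d0 : Q × List (Fin n)) : ∀ ps : List (Q × List (Fin n)),
    ∑ i ∈ Finset.range ps.length, (ps.getD i d0).2.length = tot ps := by
  intro ps
  induction ps with
  | nil => simp [tot]
  | cons p ps ih =>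
    rw [List.length_cons, Finset.sum_range_succ', tot_cons, ← ih]
    simp only [List.getD_cons_succ, List.getD_cons_zero]
    ring

/-- completeness of the families -/
lemma fam5_complete (H : HS Q (Fin n)) (z : Fin n → Bool) (s K A T : ℕ) (hs : 1 ≤ s)
    (hA : 0 < A) (hK0 : 0 < K) {l : List (Fin n)} (h : H.PT z H.out l) (hl : l.length ≤ T)
    (hK : 2 * T + s ≤ s * K) :
    ∃ (v : Fin K → Q) (γ : Fin K → Fin 5) (κ : Fin 5 → ℕ), v ⟨0, hK0⟩ = H.out ∧
      (∀ b, b ≠ 4 → κ b ≤ A + s) ∧ κ 4 ≤ T - 4 * A ∧ ∑ b, κ b ≤ T ∧ (∀ b, κ b ≤ T) ∧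
      z ∈ Good (Fam5 H v γ κ) := by
  classical
  obtain ⟨ps, hlen, hch, hsz, htot, h0⟩ := cut_exact H z s K hs h (by omega)
  let d : ℕ → ℕ := fun i => (ps.getD i (H.out, [])).2.length
  have hd : ∀ i, d i ≤ s := by
    intro i
    by_cases hi : i < ps.length
    · simp only [d, List.getD_eq_getElem _ _ hi]
      exact hsz _ (List.getElem_mem hi)
    · simp only [d]
      rw [List.getD_eq_default _ _ (by omega)]
      simp
  let P : ℕ → ℕ := fun i => ∑ j ∈ Finset.range i, d j
  have hPK : P K ≤ T := by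
    have h1 : P K = tot ps := by
      simp only [P, d]
      rw [← hlen]
      exact tot_eq _ _
    omega
  let v : Fin K → Q := fun i => (ps[(i : ℕ)]'(by rw [hlen]; exact i.2)).1
  let γ : Fin K → Fin 5 := fun i => ⟨min 4 (P i / A), by omega⟩
  let κ : Fin 5 → ℕ := fun b => ∑ i ∈ (Finset.range K).filter (fun i => min 4 (P i / A) = b), d i
  refine ⟨v, γ, κ, ?_, ?_, ?_, ?_, ?_, ?_⟩
  · have := h0 (H.out, [])
    rw [List.getD_eq_getElem _ _ (by omega)] at this
    exact this
  · intro b hb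
    have hb4 : (b : ℕ) < 4 := by
      have h1 := b.2
      have h2 : (b : ℕ) ≠ 4 := fun h => hb (Fin.ext h)
      omega
    have h1 : (Finset.range K).filter (fun i => min 4 (P i / A) = b) =
        (Finset.range K).filter (fun i => (b : ℕ) * A ≤ ∑ j ∈ Finset.range i, d j ∧
          ∑ j ∈ Finset.range i, d j < (b : ℕ) * A + A) := by
      apply Finset.filter_congr
      intro i _
      change min 4 (P i / A) = b ↔ (b : ℕ) * A ≤ P i ∧ P i < (b : ℕ) * A + A
      have h2 : P i / A = b ↔ (b : ℕ) * A ≤ P i ∧ P i < (b : ℕ) * A + A := by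
        rw [Nat.div_eq_iff hA]
        constructor <;> intro h <;> omega
      rw [← h2]
      constructor <;> intro h <;> omega
    simp only [κ]
    rw [h1]
    refine (group_sum d s _ _ hd K).trans ?_
    omega
  · have h1 : (Finset.range K).filter (fun i => min 4 (P i / A) = (4 : Fin 5)) =
        (Finset.range K).filter (fun i => 4 * A ≤ ∑ j ∈ Finset.range i, d j) := by
      apply Finset.filter_congr
      intro i _
      change min 4 (P i / A) = 4 ↔ 4 * A ≤ P i
      rw [← Nat.le_div_iff_mul_le hA]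
      omega
    simp only [κ]
    rw [h1]
    refine (group_sum' d _ K).trans ?_
    change P K - 4 * A ≤ T - 4 * A
    omega
  · have h1 : ∑ b, κ b = P K := by
      simp only [κ, P]
      rw [← Finset.sum_fiberwise_of_maps_to (s := Finset.range K) (t := Finset.univ)
        (g := fun i => (⟨min 4 (P i / A), by omega⟩ : Fin 5)) (fun _ _ => Finset.mem_univ _)]
      refine Finset.sum_congr rfl fun b _ => ?_
      refine Finset.sum_congr ?_ fun _ _ => rfl
      apply Finset.filter_congr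
      intro i _
      rw [Fin.ext_iff]
    rw [h1]; exact hPK
  · intro b
    refine le_trans ?_ hPK
    exact Finset.sum_le_sum_of_subset (Finset.filter_subset _ _)
  · intro b
    -- the certificate: everything read in the pieces of the block
    let D : Finset (Fin n) := ((Finset.range K).filter (fun i => min 4 (P i / A) = b)).biUnion
      (fun i => (ps.getD i (H.out, [])).2.toFinset)
    refine ⟨restr D z, ⟨?_, ?_⟩, sub_restr _ _⟩
    · rw [dom_restr]
      exact Finset.card_biUnion_le.trans (Finset.sum_le_sum fun i _ => List.toFinset_card_le _)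
    · intro i hi
      have hiK : (i : ℕ) < ps.length := by rw [hlen]; exact i.2
      refine (chain_get hch i hiK).mono (restr_mono ?_ z) ?_
      · intro x hx
        refine Finset.mem_biUnion.2 ⟨i, Finset.mem_filter.2 ⟨Finset.mem_range.2 i.2, ?_⟩, ?_⟩
        · have := congrArg Fin.val hi
          exact this
        · rw [List.getD_eq_getElem _ _ hiK]; exact hx
      · rintro q ⟨j, hj, hij, rfl⟩
        exact ⟨⟨j, by omega⟩, hij, rfl⟩

open Classical in
/-- Upper bound for the number of inputs with a short proof in a sound Horn system. -/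
theorem hs_count [Fintype Q] (hn : 10 ^ 16 ≤ n) (H : HS Q (Fin n)) (F : Set (Fin n → Bool))
    (hH : ∀ z, (∃ l, H.PT z H.out l) → z ∈ F) (hsens : Sensitive F) {L : ℕ} (hL : 0 < L)
    (hR : RectFree F L) (hLn : L ≤ 2 * n + 2) (G : Finset (Fin n → Bool))
    (htime : ∀ z ∈ G, ∃ r, H.PT z H.out r ∧ (r.length : ℝ) ≤ (1 + 1 / 10 ^ 6) * n) :
    (G.card : ℝ) ≤ ((Fintype.card Q : ℝ) ^ 200010 * 5 ^ 200010 * (2 * n) ^ 5) *
        Real.exp (n * Real.log 2 - 3.75e-9 * n) := by
  have hn' : (10 : ℝ) ^ 16 ≤ n := by exact_mod_cast hn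
  have hnpos : (0 : ℝ) < n := by linarith [show (0 : ℝ) < 10 ^ 16 by norm_num]
  -- parameters
  obtain ⟨o, ho⟩ : ∃ o, o = n / 1000000 := ⟨_, rfl⟩
  obtain ⟨T, hT⟩ : ∃ T, T = n + o := ⟨_, rfl⟩
  obtain ⟨s, hs⟩ : ∃ s, s = n / 100000 := ⟨_, rfl⟩
  obtain ⟨A, hA⟩ : ∃ A, A = 1999 * n / 8000 - s := ⟨_, rfl⟩
  obtain ⟨K, hK⟩ : ∃ K : ℕ, K = 200010 := ⟨_, rfl⟩
  have hs1 : 1 ≤ s := by omega
  have hA0 : 0 < A := by omega
  have hK0 : 0 < K := by omega
  have hKs : 2 * T + s ≤ s * K := by rw [hK]; omega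
  have hor : (o : ℝ) ≤ 1 / 1000000 * n := by
    have : 1000000 * o ≤ n := by omega
    have : (1000000 : ℝ) * o ≤ n := by exact_mod_cast this
    linarith
  have hAs : ((A + s : ℕ) : ℝ) ≤ 1999 / 8000 * n := by
    have : 8000 * (A + s) ≤ 1999 * n := by omega
    have : (8000 : ℝ) * ((A + s : ℕ) : ℝ) ≤ 1999 * n := by exact_mod_cast this
    linarith
  have hTA : ((T - 4 * A : ℕ) : ℝ) ≤ 11 / 20000 * n := by
    have : 20000 * (T - 4 * A) ≤ 11 * n := by omega
    have : (20000 : ℝ) * ((T - 4 * A : ℕ) : ℝ) ≤ 11 * n := by exact_mod_cast this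
    linarith
  obtain ⟨hLM, hM⟩ := logM_bound (by omega) hL hLn o hor
  -- each choice of cut data certifies few points
  have hcut : ∀ (v : Fin K → Q) (γ : Fin K → Fin 5) (κ : Fin 5 → ℕ), v ⟨0, hK0⟩ = H.out →
      (∀ b, b ≠ 4 → κ b ≤ A + s) → κ 4 ≤ T - 4 * A → ∑ b, κ b ≤ T →
      (((Finset.univ.filter (fun z => z ∈ Good (Fam5 H v γ κ))).card : ℕ) : ℝ) ≤
      Real.exp (n * Real.log 2 - 3.75e-9 * n) := by
    intro v γ κ hv h1 h2 h3
    refine count_bound' (by omega) (Fam5 H v γ κ) F hsens hR ?_ κ o (by omega) ?_ ?_ ?_ hor hLM hM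
    · intro z hz
      apply hH z
      rw [← hv]
      exact fam5_sound H v γ κ hz _
    · intro b c hc
      exact hc.1
    · intro b hb
      exact (Nat.cast_le.mpr (h1 b hb)).trans hAs
    · exact (Nat.cast_le.mpr h2).trans hTA
  let J := (Fin K → Q) × (Fin K → Fin 5) × (Fin 5 → Fin (T + 1))
  let S : J → Finset (Fin n → Bool) := fun j =>
    if j.1 ⟨0, hK0⟩ = H.out ∧ (∀ b, b ≠ 4 → (j.2.2 b : ℕ) ≤ A + s) ∧ (j.2.2 4 : ℕ) ≤ T - 4 * A ∧
      ∑ b, (j.2.2 b : ℕ) ≤ T then
    Finset.univ.filter (fun z => z ∈ Good (Fam5 H j.1 j.2.1 (fun b => (j.2.2 b : ℕ)))) else ∅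
  have hS : ∀ j, ((S j).card : ℝ) ≤ Real.exp (n * Real.log 2 - 3.75e-9 * n) := by
    intro j
    simp only [S]
    split_ifs with h
    · exact hcut _ _ _ h.1 h.2.1 h.2.2.1 h.2.2.2
    · simp only [Finset.card_empty, Nat.cast_zero]; positivity
  have hsub : G ⊆ (Finset.univ : Finset J).biUnion S := by
    intro z hz
    obtain ⟨r, hr1, hr2⟩ := htime z hz
    have hlen : r.length ≤ T := by
      rw [hT]
      have h1 : (r.length : ℝ) < n + o + 1 := by
        have h2 : n < 1000000 * (o + 1) := by omega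
        have h3 : (n : ℝ) < 1000000 * (o + 1) := by exact_mod_cast h2
        linarith
      have h2 : r.length < n + o + 1 := by exact_mod_cast h1
      omega
    obtain ⟨v, γ, κ, h1, h2, h3, h4, h5, h6⟩ := fam5_complete H z s K A T hs1 hA0 hK0 hr1 hlen hKs
    refine Finset.mem_biUnion.mpr ⟨(v, γ, fun b => ⟨κ b, Nat.lt_succ_of_le (h5 b)⟩),
      Finset.mem_univ _, ?_⟩
    simp only [S]
    rw [if_pos ⟨h1, h2, h3, h4⟩]
    exact Finset.mem_filter.mpr ⟨Finset.mem_univ _, h6⟩
  have hT2 : (T : ℝ) + 1 ≤ 2 * n := by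
    have : T + 1 ≤ 2 * n := by omega
    exact_mod_cast this
  calc (G.card : ℝ)
      ≤ ((∑ j : J, (S j).card : ℕ) : ℝ) := by
        exact_mod_cast (Finset.card_le_card hsub).trans Finset.card_biUnion_le
    _ = ∑ j : J, ((S j).card : ℝ) := by push_cast; rfl
    _ ≤ ∑ j : J, Real.exp (n * Real.log 2 - 3.75e-9 * n) := Finset.sum_le_sum fun c _ => hS c
    _ = ((Fintype.card Q : ℝ) ^ K * 5 ^ K * (T + 1) ^ 5) *
        Real.exp (n * Real.log 2 - 3.75e-9 * n) := by
        rw [Finset.sum_const, Finset.card_univ, nsmul_eq_mul]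
        simp only [J, Fintype.card_prod, Fintype.card_fun, Fintype.card_fin]
        push_cast
        ring
    _ ≤ ((Fintype.card Q : ℝ) ^ 200010 * 5 ^ 200010 * (2 * n) ^ 5) *
        Real.exp (n * Real.log 2 - 3.75e-9 * n) := by
        rw [hK]
        apply mul_le_mul_of_nonneg_right _ (Real.exp_pos _).le
        apply mul_le_mul_of_nonneg_left _ (by positivity)
        exact pow_le_pow_left₀ (by positivity) hT2 5

/-- numerical part: few states cannot certify many inputs -/
theorem numeric_lower {q g : ℝ} {n : ℕ} (hn : 10 ^ 16 ≤ n) (hq : 0 < q)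
    (hg : Real.exp (n * Real.log 2 - 2e-9 * n) ≤ g)
    (h : g ≤ (q ^ 200010 * 5 ^ 200010 * (2 * n) ^ 5) * Real.exp (n * Real.log 2 - 3.75e-9 * n)) :
    (2 : ℝ) ^ ((n : ℝ) / 10 ^ 14) ≤ q := by
  have hn' : (10 : ℝ) ^ 16 ≤ n := by exact_mod_cast hn
  have hnpos : (0 : ℝ) < n := by linarith [show (0 : ℝ) < 10 ^ 16 by norm_num]
  have hlog := Real.log_le_log (Real.exp_pos _) (hg.trans h)
  rw [Real.log_exp, Real.log_mul (by positivity) (Real.exp_pos _).ne', Real.log_exp,
    Real.log_mul (by positivity) (by positivity), Real.log_mul (by positivity) (by positivity),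
    Real.log_pow, Real.log_pow, Real.log_pow] at hlog
  have hT2 : Real.log (2 * (n : ℝ)) ≤ 1e-11 * n := by
    have h1 : 2 * (n : ℝ) ≤ (1e-7 * n) ^ 2 := by
      have : (1e-7 * (n : ℝ)) ^ 2 = (1e-14 * n) * n := by ring
      rw [this]
      apply mul_le_mul_of_nonneg_right _ hnpos.le
      linarith
    have h2 := Real.log_le_log (by positivity) h1
    rw [Real.log_pow] at h2
    have h3 : Real.log (1e-7 * (n : ℝ)) ≤ 1e-12 * n := by
      have h4 : Real.log (1e-7 * (n : ℝ)) = Real.log (1e-12 * n) + Real.log (1e5) := by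
        rw [← Real.log_mul (by positivity) (by norm_num)]
        congr 1
        ring
      have h5 : Real.log (1e-12 * (n : ℝ)) = 2 * Real.log (Real.sqrt (1e-12 * n)) := by
        rw [Real.log_sqrt (by positivity)]; ring
      have h6 : Real.log (Real.sqrt (1e-12 * (n : ℝ))) ≤ Real.sqrt (1e-12 * n) - 1 :=
        Real.log_le_sub_one_of_pos (Real.sqrt_pos.mpr (by positivity))
      have h7 : Real.log (1e5 : ℝ) ≤ 12 := by
        rw [Real.log_le_iff_le_exp (by norm_num)]
        have h8 : (2.7182818283 : ℝ) ^ 12 ≤ Real.exp 1 ^ 12 := by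
          apply pow_le_pow_left₀ (by norm_num)
          exact Real.exp_one_gt_d9.le
        have h9 : Real.exp 1 ^ 12 = Real.exp 12 := by
          rw [← Real.exp_nat_mul]; norm_num
        rw [← h9]
        refine le_trans ?_ h8
        norm_num
      have h10 : Real.sqrt (1e-12 * (n : ℝ)) * 100 ≤ 1e-12 * n := by
        have h11 : 100 ≤ Real.sqrt (1e-12 * (n : ℝ)) := by
          apply Real.le_sqrt_of_sq_le
          linarith
        calc Real.sqrt (1e-12 * (n : ℝ)) * 100 ≤ Real.sqrt (1e-12 * n) * Real.sqrt (1e-12 * n) :=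
              mul_le_mul_of_nonneg_left h11 (Real.sqrt_nonneg _)
          _ = 1e-12 * n := Real.mul_self_sqrt (by positivity)
      have h11 : (1e4 : ℝ) ≤ 1e-12 * n := by linarith
      rw [h4, h5]
      linarith
    push_cast at h2
    linarith
  have l2 := log2_hi
  have h5 : Real.log 5 ≤ 2 := by
    rw [Real.log_le_iff_le_exp (by norm_num)]
    have h8 : (2.7182818283 : ℝ) ^ 2 ≤ Real.exp 1 ^ 2 :=
      pow_le_pow_left₀ (by norm_num) Real.exp_one_gt_d9.le _
    have h9 : Real.exp 1 ^ 2 = Real.exp 2 := by rw [← Real.exp_nat_mul]; norm_num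
    rw [← h9]
    refine le_trans ?_ h8
    norm_num
  have hfinal : (n : ℝ) / 10 ^ 14 * Real.log 2 ≤ Real.log q := by
    have e2 : (n : ℝ) / 10 ^ 14 * Real.log 2 ≤ n / 10 ^ 14 * 0.6932 :=
      mul_le_mul_of_nonneg_left l2.le (by positivity)
    push_cast at hlog
    linarith
  rw [Real.rpow_def_of_pos (by norm_num), ← Real.exp_log hq]
  apply Real.exp_le_exp.mpr
  linarith

end Pool.Agent.JT
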