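import Pool.Agent.SemRO.Nbp

/-! Horn systems (proof systems with rules of at most two premises), proof trees, and cutting a
proof tree into a bounded number of small pieces. -/

namespace Pool.Agent.JT

open Pool.Agent.SemRO

/-- A system of Horn rules on the states `Q` over Boolean variables indexed by `I`. -/
structure HS (Q I : Type) where
  /-- axioms -/
  ax : Q → Prop
  /-- `lf i b q`: `q` follows from `x_i = b` -/
  lf : I → Bool → Q → Prop
  /-- `r1 p q`: `q` follows from `p` -/
  r1 : Q → Q → Prop
  /-- `r2 p p' q`: `q` follows from `p` and `p'` -/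
  r2 : Q → Q → Q → Prop
  /-- the goal -/
  out : Q

/-- proof trees; the list contains the variables read, with repetitions -/
inductive HS.PT {Q I : Type} (H : HS Q I) (y : I → Bool) : Q → List I → Prop
  | ax {q : Q} : H.ax q → HS.PT H y q []
  | leaf {i : I} {q : Q} : H.lf i (y i) q → HS.PT H y q [i]
  | one {p q : Q} {l : List I} : H.r1 p q → HS.PT H y p l → HS.PT H y q l
  | two {p p' q : Q} {l l' : List I} : H.r2 p p' q → HS.PT H y p l → HS.PT H y p' l' →
      HS.PT H y q (l ++ l')

variable {Q : Type} {n : ℕ}

/-- provability from the literals of a partial assignment and hypotheses -/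
inductive HS.PA (H : HS Q (Fin n)) (c : Fin n → Option Bool) (Hy : Q → Prop) : Q → Prop
  | hyp {q : Q} : Hy q → HS.PA H c Hy q
  | ax {q : Q} : H.ax q → HS.PA H c Hy q
  | leaf {i : Fin n} {b : Bool} {q : Q} : c i = some b → H.lf i b q → HS.PA H c Hy q
  | one {p q : Q} : H.r1 p q → HS.PA H c Hy p → HS.PA H c Hy q
  | two {p p' q : Q} : H.r2 p p' q → HS.PA H c Hy p → HS.PA H c Hy p' → HS.PA H c Hy q

lemma HS.PA.mono {H : HS Q (Fin n)} {c c' : Fin n → Option Bool} {Hy Hy' : Q → Prop} {q : Q}
    (h : H.PA c Hy q) (hc : ∀ i b, c i = some b → c' i = some b) (hh : ∀ q, Hy q → Hy' q) :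
    H.PA c' Hy' q := by
  induction h with
  | hyp h => exact .hyp (hh _ h)
  | ax h => exact .ax h
  | leaf h1 h2 => exact .leaf (hc _ _ h1) h2
  | one h1 _ ih => exact .one h1 ih
  | two h1 _ _ ih1 ih2 => exact .two h1 ih1 ih2

lemma HS.PA.sound {H : HS Q (Fin n)} {c : Fin n → Option Bool} {Hy : Q → Prop} {q : Q}
    (h : H.PA c Hy q) {z : Fin n → Bool} (hz : Sub c z) (hh : ∀ q, Hy q → ∃ l, H.PT z q l) :
    ∃ l, H.PT z q l := by
  induction h with
  | hyp h => exact hh _ h
  | ax h => exact ⟨_, .ax h⟩
  | @leaf i b q h1 h2 =>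
    have : z i = b := hz i b h1
    exact ⟨_, .leaf (by rw [this]; exact h2)⟩
  | one h1 _ ih => obtain ⟨l, hl⟩ := ih; exact ⟨_, .one h1 hl⟩
  | two h1 _ _ ih1 ih2 =>
    obtain ⟨l, hl⟩ := ih1
    obtain ⟨l', hl'⟩ := ih2
    exact ⟨_, .two h1 hl hl'⟩

/-- a list of pieces (most recent first): every state is provable from the literals read in its
piece and the states of the later entries of the list -/
def Chain (H : HS Q (Fin n)) (z : Fin n → Bool) : List (Q × List (Fin n)) → Prop
  | [] => True
  | p :: ps => Chain H z ps ∧ H.PA (restr p.2.toFinset z) (fun q => q ∈ ps.map Prod.fst) p.1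

lemma restr_mono {D D' : Finset (Fin n)} (h : D ⊆ D') (z : Fin n → Bool) :
    ∀ i b, restr D z i = some b → restr D' z i = some b := by
  intro i b hi
  unfold restr at hi ⊢
  split_ifs at hi with h1
  rw [if_pos (h h1)]; exact hi

lemma Chain.append {H : HS Q (Fin n)} {z : Fin n → Bool} {ps ps' : List (Q × List (Fin n))}
    (h : Chain H z ps) (h' : Chain H z ps') : Chain H z (ps ++ ps') := by
  induction ps with
  | nil => exact h'
  | cons p ps ih =>
    refine ⟨ih h.1, h.2.mono (fun _ _ hi => hi) fun q hq => ?_⟩
    change q ∈ List.map Prod.fst (ps ++ ps')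
    rw [List.map_append]
    exact List.mem_append_left _ hq

/-- total number of leaves of a list of pieces -/
def tot (ps : List (Q × List (Fin n))) : ℕ := (ps.map fun p => p.2.length).sum

lemma tot_append (ps ps' : List (Q × List (Fin n))) : tot (ps ++ ps') = tot ps + tot ps' := by
  simp [tot]

lemma tot_cons (p : Q × List (Fin n)) (ps : List (Q × List (Fin n))) :
    tot (p :: ps) = p.2.length + tot ps := by
  simp [tot]

/-- cutting a proof tree -/
theorem cut (H : HS Q (Fin n)) (z : Fin n → Bool) (s : ℕ) (hs : 1 ≤ s) {q : Q} {l : List (Fin n)}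
    (h : H.PT z q l) : ∃ (ps : List (Q × List (Fin n))) (r : List (Fin n)),
      Chain H z ps ∧ H.PA (restr r.toFinset z) (fun q => q ∈ ps.map Prod.fst) q ∧
      (∀ p ∈ ps, p.2.length ≤ s) ∧ r.length ≤ s ∧ tot ps + r.length ≤ l.length ∧
      s * ps.length ≤ 2 * tot ps := by
  induction h with
  | ax h => exact ⟨[], [], trivial, .ax h, by simp, by simp, by simp [tot], by simp [tot]⟩
  | @leaf i q h =>
    exact ⟨[], [i], trivial, .leaf (i := i) (b := z i) (by simp [restr]) h, by simp, by simpa using hs,
      by simp [tot], by simp [tot]⟩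
  | one h _ ih =>
    obtain ⟨ps, r, h1, h2, h3⟩ := ih
    exact ⟨ps, r, h1, .one h h2, h3⟩
  | @two p p' q l l' h _ _ ih ih' =>
    obtain ⟨ps, r, h1, h2, h3, h4, h5, h6⟩ := ih
    obtain ⟨ps', r', h1', h2', h3', h4', h5', h6'⟩ := ih'
    by_cases hlen : r.length + r'.length ≤ s
    · refine ⟨ps' ++ ps, r ++ r', h1'.append h1, ?_, ?_, ?_, ?_, ?_⟩
      · refine .two h (h2.mono (restr_mono ?_ z) fun q hq => ?_)
          (h2'.mono (restr_mono ?_ z) fun q hq => ?_)
        · intro i hi
          rw [List.toFinset_append]
          exact Finset.mem_union_left _ hi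
        · rw [List.map_append]; exact List.mem_append_right _ hq
        · intro i hi
          rw [List.toFinset_append]
          exact Finset.mem_union_right _ hi
        · rw [List.map_append]; exact List.mem_append_left _ hq
      · intro p hp
        rcases List.mem_append.1 hp with hp | hp
        · exact h3' p hp
        · exact h3 p hp
      · simpa using hlen
      · rw [tot_append, List.length_append, List.length_append]; omega
      · rw [tot_append, List.length_append, Nat.mul_add]; omega
    · refine ⟨(p', r') :: (ps' ++ ((p, r) :: ps)), [], ⟨h1'.append ⟨h1, h2⟩, ?_⟩, ?_, ?_, by simp,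
        ?_, ?_⟩
      · refine h2'.mono (fun _ _ hi => hi) fun q hq => ?_
        rw [List.map_append]; exact List.mem_append_left _ hq
      · refine .two h (.hyp ?_) (.hyp ?_) <;> simp
      · intro x hx
        rcases List.mem_cons.1 hx with rfl | hx
        · exact h4'
        rcases List.mem_append.1 hx with hx | hx
        · exact h3' x hx
        rcases List.mem_cons.1 hx with rfl | hx
        · exact h4
        · exact h3 x hx
      · rw [tot_cons, tot_append, tot_cons, List.length_append, List.length_nil]
        dsimp only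
        omega
      · rw [tot_cons, tot_append, tot_cons, List.length_cons, List.length_append, List.length_cons]
        dsimp only
        have : s * (ps'.length + (ps.length + 1) + 1) = s * ps'.length + s * ps.length + 2 * s := by
          ring
        rw [this]
        omega

/-- a chain of exactly `K` pieces ending with the goal -/
theorem cut_exact (H : HS Q (Fin n)) (z : Fin n → Bool) (s K : ℕ) (hs : 1 ≤ s) {q : Q}
    {l : List (Fin n)} (h : H.PT z q l) (hK : 2 * l.length + s ≤ s * K) :
    ∃ ps : List (Q × List (Fin n)), ps.length = K ∧ Chain H z ps ∧ (∀ p ∈ ps, p.2.length ≤ s) ∧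
      tot ps ≤ l.length ∧ ∀ d : Q × List (Fin n), (ps.getD 0 d).1 = q := by
  obtain ⟨ps, r, h1, h2, h3, h4, h5, h6⟩ := cut H z s hs h
  have hlen : ps.length + 1 ≤ K := by
    have h7 : s * (ps.length + 1) ≤ s * K := by
      rw [Nat.mul_add]; omega
    exact Nat.le_of_mul_le_mul_left h7 (by omega)
  obtain ⟨j, hj⟩ := Nat.exists_eq_add_of_le hlen
  have hpad : ∀ j : ℕ, Chain H z (List.replicate j (q, []) ++ ((q, r) :: ps)) := by
    intro j
    induction j with
    | zero => exact ⟨h1, h2⟩
    | succ j ih =>
      refine ⟨ih, .hyp ?_⟩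
      simp
  refine ⟨List.replicate j (q, []) ++ ((q, r) :: ps), ?_, hpad j, ?_, ?_, ?_⟩
  · rw [List.length_append, List.length_replicate, List.length_cons]; omega
  · intro p hp
    rcases List.mem_append.1 hp with hp | hp
    · rw [List.eq_of_mem_replicate hp]; simp
    · rcases List.mem_cons.1 hp with rfl | hp
      · exact h4
      · exact h3 p hp
  · rw [tot_append, tot_cons]
    have : tot (List.replicate j ((q, []) : Q × List (Fin n))) = 0 := by
      simp [tot]
    rw [this]
    dsimp only
    omega
  · intro d
    cases j with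
    | zero => simp
    | succ j => simp [List.replicate_succ]

/-- grouping: the pieces that start in an interval -/
lemma group_sum (d : ℕ → ℕ) (s α β : ℕ) (hd : ∀ i, d i ≤ s) (K : ℕ) :
    ∑ i ∈ (Finset.range K).filter (fun i => α ≤ ∑ j ∈ Finset.range i, d j ∧
      ∑ j ∈ Finset.range i, d j < β), d i ≤ min (∑ j ∈ Finset.range K, d j) (β + s) - α := by
  induction K with
  | zero => simp
  | succ K ih =>
    rw [Finset.range_add_one, Finset.filter_insert, Finset.sum_insert Finset.notMem_range_self]
    have hs := hd K
    split_ifs with h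
    · rw [Finset.sum_insert (by simp)]
      omega
    · omega

lemma group_sum' (d : ℕ → ℕ) (α : ℕ) (K : ℕ) :
    ∑ i ∈ (Finset.range K).filter (fun i => α ≤ ∑ j ∈ Finset.range i, d j), d i ≤
      (∑ j ∈ Finset.range K, d j) - α := by
  induction K with
  | zero => simp
  | succ K ih =>
    rw [Finset.range_add_one, Finset.filter_insert, Finset.sum_insert Finset.notMem_range_self]
    split_ifs with h
    · rw [Finset.sum_insert (by simp)]
      omega
    · omega

end Pool.Agent.JT
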