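import Pool.Agent.JT.CircDefs
import Pool.Agent.JT.Horn

/-! Circuits: soundness and completeness of justification trees, translation to Horn systems. -/

namespace Pool.Agent.JT

variable {N : ℕ}

lemma Circuit.val_inl (C : Circuit N) (y : Fin N → Bool) (i : Fin N) : C.val y (.inl i) = y i := rfl

lemma Circuit.val_inr (C : Circuit N) (y : Fin N → Bool) (g : Fin C.size) :
    C.val y (.inr g) = (C.gate g).eval (fun w => C.val y (C.node w)) := by
  have h : C.val y (.inr g) = C.gateVal y g g.2 := rfl
  rw [h, Circuit.gateVal]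
  congr 1
  funext w
  rcases w with i | j
  · rfl
  · rfl

theorem Circuit.just_sound {C : Circuit N} {y : Fin N → Bool} {w : Fin N ⊕ Fin C.size} {b : Bool}
    {l : List (Fin N)} (h : C.Just y w b l) : C.val y w = b := by
  induction h with
  | leaf i => rfl
  | and_true hg _ _ ih1 ih2 => rw [Circuit.val_inr, hg]; simp [Gate.eval, ih1, ih2]
  | and_false_left hg _ ih => rw [Circuit.val_inr, hg]; simp [Gate.eval, ih]
  | and_false_right hg _ ih => rw [Circuit.val_inr, hg]; simp [Gate.eval, ih]
  | or_true_left hg _ ih => rw [Circuit.val_inr, hg]; simp [Gate.eval, ih]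
  | or_true_right hg _ ih => rw [Circuit.val_inr, hg]; simp [Gate.eval, ih]
  | or_false hg _ _ ih1 ih2 => rw [Circuit.val_inr, hg]; simp [Gate.eval, ih1, ih2]
  | not hg _ ih => rw [Circuit.val_inr, hg]; simp [Gate.eval, ih]

theorem Circuit.just_complete (C : Circuit N) (y : Fin N → Bool) (w : Fin N ⊕ Fin C.size) :
    ∃ l, C.Just y w (C.val y w) l := by
  have key : ∀ k : ℕ, ∀ g : Fin C.size, (g : ℕ) = k → ∃ l, C.Just y (.inr g) (C.val y (.inr g)) l := by
    intro k
    induction k using Nat.strong_induction_on with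
    | _ k ih =>
      intro g hgk
      have hn : ∀ v : Fin N ⊕ Fin (g : ℕ), ∃ l, C.Just y (C.node v) (C.val y (C.node v)) l := by
        intro v
        rcases v with i | j
        · exact ⟨[i], .leaf i⟩
        · exact ih j (by have := j.2; omega) ⟨j, j.2.trans g.2⟩ rfl
      rw [Circuit.val_inr]
      cases hg : C.gate g with
      | and a b =>
        obtain ⟨l, hl⟩ := hn a
        obtain ⟨l', hl'⟩ := hn b
        simp only [Gate.eval]
        cases ha : C.val y (C.node a)
        · rw [ha] at hl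
          exact ⟨l, .and_false_left hg hl⟩
        · cases hb : C.val y (C.node b)
          · rw [hb] at hl'
            exact ⟨l', .and_false_right hg hl'⟩
          · rw [ha] at hl
            rw [hb] at hl'
            exact ⟨l ++ l', .and_true hg hl hl'⟩
      | or a b =>
        obtain ⟨l, hl⟩ := hn a
        obtain ⟨l', hl'⟩ := hn b
        simp only [Gate.eval]
        cases ha : C.val y (C.node a)
        · cases hb : C.val y (C.node b)
          · rw [ha] at hl
            rw [hb] at hl'
            exact ⟨l ++ l', .or_false hg hl hl'⟩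
          · rw [hb] at hl'
            exact ⟨l', .or_true_right hg hl'⟩
        · rw [ha] at hl
          exact ⟨l, .or_true_left hg hl⟩
      | not a =>
        obtain ⟨l, hl⟩ := hn a
        simp only [Gate.eval]
        exact ⟨l, .not hg hl⟩
  rcases w with i | g
  · exact ⟨[i], .leaf i⟩
  · exact key g g rfl

theorem Circuit.just_congr {C : Circuit N} {y y' : Fin N → Bool} {w : Fin N ⊕ Fin C.size}
    {b : Bool} {l : List (Fin N)} (h : C.Just y w b l) (hl : ∀ i ∈ l, y' i = y i) :
    C.Just y' w b l := by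
  induction h with
  | leaf i =>
    have h1 := hl i (by simp)
    rw [← h1]
    exact .leaf i
  | and_true hg _ _ ih1 ih2 =>
    exact .and_true hg (ih1 fun i hi => hl i (List.mem_append_left _ hi))
      (ih2 fun i hi => hl i (List.mem_append_right _ hi))
  | and_false_left hg _ ih => exact .and_false_left hg (ih hl)
  | and_false_right hg _ ih => exact .and_false_right hg (ih hl)
  | or_true_left hg _ ih => exact .or_true_left hg (ih hl)
  | or_true_right hg _ ih => exact .or_true_right hg (ih hl)
  | or_false hg _ _ ih1 ih2 =>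
    exact .or_false hg (ih1 fun i hi => hl i (List.mem_append_left _ hi))
      (ih2 fun i hi => hl i (List.mem_append_right _ hi))
  | not hg _ ih => exact .not hg (ih hl)

/-- the first `n` variables from `x`, the others from `base` -/
def glue {n : ℕ} (base : Fin N → Bool) (x : Fin n → Bool) : Fin N → Bool :=
  fun i => if h : (i : ℕ) < n then x ⟨i, h⟩ else base i

/-- the variables read in the first block -/
def low (n : ℕ) (l : List (Fin N)) : List (Fin n) :=
  l.filterMap (fun i : Fin N => if h : (i : ℕ) < n then some (⟨(i : ℕ), h⟩ : Fin n) else none)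

lemma low_append (n : ℕ) (l l' : List (Fin N)) : low n (l ++ l') = low n l ++ low n l' := by
  simp [low]

lemma length_low (n : ℕ) (l : List (Fin N)) :
    (low n l).length = (l.filter (fun i : Fin N => decide ((i : ℕ) < n))).length := by
  induction l with
  | nil => rfl
  | cons i l ih =>
    unfold low at ih ⊢
    by_cases h : (i : ℕ) < n
    · rw [List.filterMap_cons_some (b := ⟨i, h⟩) (by rw [dif_pos h]), List.filter_cons_of_pos (by simpa using h),
        List.length_cons, List.length_cons, ih]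
    · rw [List.filterMap_cons_none (by rw [dif_neg h]), List.filter_cons_of_neg (by simpa using h), ih]

/-- the Horn system of a circuit after fixing all variables but the first `n` -/
def Circuit.toHS (C : Circuit N) {n : ℕ} (hn : n ≤ N) (base : Fin N → Bool) :
    HS ((Fin N ⊕ Fin C.size) × Bool) (Fin n) where
  ax q := ∃ i : Fin N, n ≤ (i : ℕ) ∧ q = (.inl i, base i)
  lf i b q := q = (.inl (Fin.castLE hn i), b)
  r1 p q := ∃ (g : Fin C.size) (a : Fin N ⊕ Fin (g : ℕ)),
    ((∃ b, C.gate g = .and a b ∨ C.gate g = .and b a) ∧ p = (C.node a, false) ∧ q = (.inr g, false)) ∨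
    ((∃ b, C.gate g = .or a b ∨ C.gate g = .or b a) ∧ p = (C.node a, true) ∧ q = (.inr g, true)) ∨
    (C.gate g = .not a ∧ ∃ b, p = (C.node a, b) ∧ q = (.inr g, !b))
  r2 p p' q := ∃ (g : Fin C.size) (a b : Fin N ⊕ Fin (g : ℕ)),
    (C.gate g = .and a b ∧ p = (C.node a, true) ∧ p' = (C.node b, true) ∧ q = (.inr g, true)) ∨
    (C.gate g = .or a b ∧ p = (C.node a, false) ∧ p' = (C.node b, false) ∧ q = (.inr g, false))
  out := (C.out, true)

theorem Circuit.toHS_complete {C : Circuit N} {n : ℕ} (hn : n ≤ N) (base : Fin N → Bool)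
    {x : Fin n → Bool} {w : Fin N ⊕ Fin C.size} {b : Bool} {l : List (Fin N)}
    (h : C.Just (glue base x) w b l) : (C.toHS hn base).PT x (w, b) (low n l) := by
  induction h with
  | leaf i =>
    by_cases hi : (i : ℕ) < n
    · have h1 : low n [i] = [⟨i, hi⟩] := by
        unfold low
        rw [List.filterMap_cons_some (b := ⟨i, hi⟩) (by rw [dif_pos hi]), List.filterMap_nil]
      have h2 : glue base x i = x ⟨i, hi⟩ := by unfold glue; rw [dif_pos hi]
      rw [h1, h2]
      exact HS.PT.leaf (i := (⟨(i : ℕ), hi⟩ : Fin n)) rfl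
    · have h1 : low n [i] = [] := by
        unfold low
        rw [List.filterMap_cons_none (by rw [dif_neg hi]), List.filterMap_nil]
      have h2 : glue base x i = base i := by unfold glue; rw [dif_neg hi]
      rw [h1, h2]
      exact .ax ⟨i, not_lt.1 hi, rfl⟩
  | and_true hg _ _ ih1 ih2 =>
    rw [low_append]
    exact .two ⟨_, _, _, Or.inl ⟨hg, rfl, rfl, rfl⟩⟩ ih1 ih2
  | and_false_left hg _ ih => exact .one ⟨_, _, Or.inl ⟨⟨_, Or.inl hg⟩, rfl, rfl⟩⟩ ih
  | and_false_right hg _ ih => exact .one ⟨_, _, Or.inl ⟨⟨_, Or.inr hg⟩, rfl, rfl⟩⟩ ih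
  | or_true_left hg _ ih => exact .one ⟨_, _, Or.inr (Or.inl ⟨⟨_, Or.inl hg⟩, rfl, rfl⟩)⟩ ih
  | or_true_right hg _ ih => exact .one ⟨_, _, Or.inr (Or.inl ⟨⟨_, Or.inr hg⟩, rfl, rfl⟩)⟩ ih
  | or_false hg _ _ ih1 ih2 =>
    rw [low_append]
    exact .two ⟨_, _, _, Or.inr ⟨hg, rfl, rfl, rfl⟩⟩ ih1 ih2
  | not hg _ ih => exact .one ⟨_, _, Or.inr (Or.inr ⟨hg, _, rfl, rfl⟩)⟩ ih

theorem Circuit.toHS_sound {C : Circuit N} {n : ℕ} (hn : n ≤ N) (base : Fin N → Bool)
    {x : Fin n → Bool} {q : (Fin N ⊕ Fin C.size) × Bool} {l : List (Fin n)}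
    (h : (C.toHS hn base).PT x q l) : ∃ l', C.Just (glue base x) q.1 q.2 l' := by
  induction h with
  | @ax q h =>
    obtain ⟨i, hi, rfl⟩ := h
    have h2 : glue base x i = base i := by unfold glue; rw [dif_neg (not_lt.2 hi)]
    exact ⟨[i], by rw [← h2]; exact .leaf i⟩
  | @leaf i q h =>
    change q = _ at h
    subst h
    have h2 : glue base x (Fin.castLE hn i) = x i := by
      unfold glue
      rw [dif_pos (show ((Fin.castLE hn i : Fin N) : ℕ) < n from i.2)]
      rfl
    exact ⟨[Fin.castLE hn i], by rw [← h2]; exact .leaf _⟩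
  | one h _ ih =>
    obtain ⟨l', ih⟩ := ih
    obtain ⟨g, a, h | h | h⟩ := h
    · obtain ⟨⟨b, hb | hb⟩, rfl, rfl⟩ := h
      · exact ⟨_, .and_false_left hb ih⟩
      · exact ⟨_, .and_false_right hb ih⟩
    · obtain ⟨⟨b, hb | hb⟩, rfl, rfl⟩ := h
      · exact ⟨_, .or_true_left hb ih⟩
      · exact ⟨_, .or_true_right hb ih⟩
    · obtain ⟨hg, b, rfl, rfl⟩ := h
      exact ⟨_, .not hg ih⟩
  | two h _ _ ih1 ih2 =>
    obtain ⟨l1, ih1⟩ := ih1
    obtain ⟨l2, ih2⟩ := ih2
    obtain ⟨g, a, b, h | h⟩ := h
    · obtain ⟨hg, rfl, rfl, rfl⟩ := h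
      exact ⟨_, .and_true hg ih1 ih2⟩
    · obtain ⟨hg, rfl, rfl, rfl⟩ := h
      exact ⟨_, .or_false hg ih1 ih2⟩

/-- the circuit accepts iff the Horn system derives its goal -/
theorem Circuit.toHS_iff (C : Circuit N) {n : ℕ} (hn : n ≤ N) (base : Fin N → Bool)
    (x : Fin n → Bool) :
    C.eval (glue base x) = true ↔ ∃ l, (C.toHS hn base).PT x (C.toHS hn base).out l := by
  constructor
  · intro h
    obtain ⟨l, hl⟩ := C.just_complete (glue base x) C.out
    have h1 : C.val (glue base x) C.out = true := h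
    rw [h1] at hl
    exact ⟨_, Circuit.toHS_complete hn base hl⟩
  · rintro ⟨l, hl⟩
    obtain ⟨l', hl'⟩ := Circuit.toHS_sound hn base hl
    exact Circuit.just_sound hl'

end Pool.Agent.JT
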