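import Mathlib

/-! Boolean circuits over AND, OR (fan-in two) and NOT, and justification trees of their values. -/

namespace Pool.Agent.JT

/-- A gate whose inputs are taken from `W`. -/
inductive Gate (W : Type) where
  /-- conjunction -/
  | and (a b : W)
  /-- disjunction -/
  | or (a b : W)
  /-- negation -/
  | not (a : W)

/-- the value of a gate when its inputs have the values `v` -/
def Gate.eval {W : Type} (v : W → Bool) : Gate W → Bool
  | .and a b => v a && v b
  | .or a b => v a || v b
  | .not a => !(v a)

/-- A Boolean circuit with `N` input variables: gates are numbered `0, …, size - 1`, every gate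
reads input variables or EARLIER gates (arbitrary fan-out); the output is a variable or a gate. -/
structure Circuit (N : ℕ) where
  /-- number of gates -/
  size : ℕ
  /-- the gates -/
  gate : (g : Fin size) → Gate (Fin N ⊕ Fin (g : ℕ))
  /-- the output -/
  out : Fin N ⊕ Fin size

variable {N : ℕ}

/-- the value computed at gate number `g` on the input `y` -/
def Circuit.gateVal (C : Circuit N) (y : Fin N → Bool) (g : ℕ) (hg : g < C.size) : Bool :=
  (C.gate ⟨g, hg⟩).eval (fun w => match w with
    | .inl i => y i
    | .inr j => C.gateVal y j (j.2.trans hg))
termination_by g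
decreasing_by exact j.2

/-- the value of a node (input variable or gate) on the input `y` -/
def Circuit.val (C : Circuit N) (y : Fin N → Bool) : Fin N ⊕ Fin C.size → Bool
  | .inl i => y i
  | .inr g => C.gateVal y g g.2

/-- the value computed by the circuit on the input `y` -/
def Circuit.eval (C : Circuit N) (y : Fin N → Bool) : Bool := C.val y C.out

/-- an input of the gate `g` as a node of the circuit -/
def Circuit.node (C : Circuit N) {g : Fin C.size} (w : Fin N ⊕ Fin (g : ℕ)) :
    Fin N ⊕ Fin C.size :=
  w.map id (fun j : Fin (g : ℕ) => (⟨(j : ℕ), j.2.trans g.2⟩ : Fin C.size))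

/-- Justification trees. `C.Just y w b l` means: there is a tree proving that the node `w` has the
value `b` on the input `y`, whose leaves read the input variables in the list `l` (from left to
right, with repetitions; a node used twice in the tree is justified twice). A conjunction is
justified to be true by justifying both inputs to be true, and to be false by justifying one input
to be false; dually for disjunctions; a negation is justified by justifying its input. -/
inductive Circuit.Just (C : Circuit N) (y : Fin N → Bool) :
    Fin N ⊕ Fin C.size → Bool → List (Fin N) → Prop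
  | leaf (i : Fin N) : Circuit.Just C y (.inl i) (y i) [i]
  | and_true {g : Fin C.size} {a b : Fin N ⊕ Fin (g : ℕ)} {l l' : List (Fin N)} :
      C.gate g = .and a b → Circuit.Just C y (C.node a) true l →
      Circuit.Just C y (C.node b) true l' → Circuit.Just C y (.inr g) true (l ++ l')
  | and_false_left {g : Fin C.size} {a b : Fin N ⊕ Fin (g : ℕ)} {l : List (Fin N)} :
      C.gate g = .and a b → Circuit.Just C y (C.node a) false l →
      Circuit.Just C y (.inr g) false l
  | and_false_right {g : Fin C.size} {a b : Fin N ⊕ Fin (g : ℕ)} {l : List (Fin N)} :
      C.gate g = .and a b → Circuit.Just C y (C.node b) false l →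
      Circuit.Just C y (.inr g) false l
  | or_true_left {g : Fin C.size} {a b : Fin N ⊕ Fin (g : ℕ)} {l : List (Fin N)} :
      C.gate g = .or a b → Circuit.Just C y (C.node a) true l →
      Circuit.Just C y (.inr g) true l
  | or_true_right {g : Fin C.size} {a b : Fin N ⊕ Fin (g : ℕ)} {l : List (Fin N)} :
      C.gate g = .or a b → Circuit.Just C y (C.node b) true l →
      Circuit.Just C y (.inr g) true l
  | or_false {g : Fin C.size} {a b : Fin N ⊕ Fin (g : ℕ)} {l l' : List (Fin N)} :
      C.gate g = .or a b → Circuit.Just C y (C.node a) false l →
      Circuit.Just C y (C.node b) false l' → Circuit.Just C y (.inr g) false (l ++ l')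
  | not {g : Fin C.size} {a : Fin N ⊕ Fin (g : ℕ)} {b : Bool} {l : List (Fin N)} :
      C.gate g = .not a → Circuit.Just C y (C.node a) b l →
      Circuit.Just C y (.inr g) (!b) l

end Pool.Agent.JT
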