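import Mathlib
import Pool.Agent.SemRO.Core

/-! A hash family of polynomials over `F_2[X]/X^m` evaluated at polynomials of degree `< n`:
exactly `k`-wise independent, and sparse rectangle-free sets (MP_5f97e6_lc). -/

namespace Pool.Agent.JT

open PowerSeries

instance : Fact (Nat.Prime 2) := ⟨Nat.prime_two⟩

/-- the polynomial with the given coefficients -/
noncomputable def ser {r : ℕ} (b : Fin r → ZMod 2) : PowerSeries (ZMod 2) :=
  PowerSeries.mk fun i => if h : i < r then b ⟨i, h⟩ else 0

lemma coeff_ser {r : ℕ} (b : Fin r → ZMod 2) (i : ℕ) :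
    coeff i (ser b) = if h : i < r then b ⟨i, h⟩ else 0 := by
  simp [ser]

lemma ser_add {r : ℕ} (b c : Fin r → ZMod 2) : ser (b + c) = ser b + ser c := by
  ext i
  rw [map_add, coeff_ser, coeff_ser, coeff_ser]
  split_ifs <;> simp

lemma ser_sub {r : ℕ} (b c : Fin r → ZMod 2) : ser (b - c) = ser b - ser c := by
  ext i
  rw [map_sub, coeff_ser, coeff_ser, coeff_ser]
  split_ifs <;> simp

lemma ser_dvd {n : ℕ} {b : Fin n → ZMod 2} (hb : b ≠ 0) : ser b ∣ (X : PowerSeries (ZMod 2)) ^ n := by
  obtain ⟨i, hi⟩ : ∃ i, b i ≠ 0 := by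
    by_contra h
    push Not at h
    exact hb (funext h)
  have hc : coeff (i : ℕ) (ser b) ≠ 0 := by
    rw [coeff_ser, dif_pos i.2]; exact hi
  have h0 : ser b ≠ 0 := by
    intro h; rw [h] at hc; simp at hc
  have hord : (ser b).order.toNat ≤ n := by
    have h1 := order_le (φ := ser b) (i : ℕ) hc
    have h2 := coe_toNat_order h0
    rw [← h2] at h1
    have h3 : (ser b).order.toNat ≤ (i : ℕ) := by exact_mod_cast h1
    omega
  have h1 := X_pow_order_mul_divXPowOrder (f := ser b)
  obtain ⟨u, hu⟩ := isUnit_divided_by_X_pow_order h0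
  rw [← hu] at h1
  have h2 : ser b ∣ X ^ (ser b).order.toNat := by
    refine ⟨(u⁻¹ : (PowerSeries (ZMod 2))ˣ), ?_⟩
    conv_rhs => rw [← h1]
    rw [mul_assoc, Units.mul_inv, mul_one]
  exact h2.trans (pow_dvd_pow _ hord)

lemma det_dvd {n k : ℕ} (x : Fin k → Fin n → ZMod 2) (hx : Function.Injective x) :
    (Matrix.vandermonde fun i => ser (x i)).det ∣ (X : PowerSeries (ZMod 2)) ^ (n * k * k) := by
  rw [Matrix.det_vandermonde]
  have h1 : ∀ i : Fin k, ∏ j ∈ Finset.Ioi i, (ser (x j) - ser (x i)) ∣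
      (X : PowerSeries (ZMod 2)) ^ (n * k) := by
    intro i
    refine (Finset.prod_dvd_prod_of_dvd _ (fun _ => (X : PowerSeries (ZMod 2)) ^ n)
      (fun j hj => ?_)).trans ?_
    · rw [← ser_sub]
      apply ser_dvd
      rw [Ne, sub_eq_zero]
      intro h
      exact (Finset.mem_Ioi.1 hj).ne (hx h).symm
    · rw [Finset.prod_const, ← pow_mul]
      apply pow_dvd_pow
      apply Nat.mul_le_mul_left
      calc (Finset.Ioi i).card ≤ (Finset.univ : Finset (Fin k)).card := Finset.card_le_univ _
        _ = k := by simp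
  refine (Finset.prod_dvd_prod_of_dvd _ (fun _ => (X : PowerSeries (ZMod 2)) ^ (n * k))
    (fun i _ => h1 i)).trans ?_
  rw [Finset.prod_const, ← pow_mul]
  simp

/-- the value of the polynomial with coefficients `a` at `x` -/
noncomputable def pval {n m k : ℕ} (a : Fin k → Fin m → ZMod 2) (x : Fin n → ZMod 2) :
    PowerSeries (ZMod 2) := ∑ j : Fin k, ser (a j) * ser x ^ (j : ℕ)

lemma pval_add {n m k : ℕ} (a b : Fin k → Fin m → ZMod 2) (x : Fin n → ZMod 2) :
    pval (a + b) x = pval a x + pval b x := by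
  unfold pval
  rw [← Finset.sum_add_distrib]
  refine Finset.sum_congr rfl fun j _ => ?_
  rw [Pi.add_apply, ser_add, add_mul]

/-- truncation does not change the low coefficients of products -/
lemma coeff_trunc_mul (m : ℕ) (α q : PowerSeries (ZMod 2)) (c : ℕ) (hc : c < m) :
    coeff c (ser (fun i : Fin m => coeff (i : ℕ) α) * q) = coeff c (α * q) := by
  rw [coeff_mul, coeff_mul]
  refine Finset.sum_congr rfl fun p hp => ?_
  have := Finset.HasAntidiagonal.mem_antidiagonal.1 hp
  rw [coeff_ser, dif_pos (by omega)]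

theorem pval_surj {n m k l : ℕ} (hm : n * k * k + l ≤ m) (x : Fin k → Fin n → ZMod 2)
    (hx : Function.Injective x) (y : Fin k → Fin l → ZMod 2) :
    ∃ a : Fin k → Fin m → ZMod 2, ∀ i (c : Fin l), coeff (m - 1 - c) (pval a (x i)) = y i c := by
  obtain ⟨g, hg⟩ := det_dvd x hx
  set V := Matrix.vandermonde fun i => ser (x i) with hV
  let T : Fin k → PowerSeries (ZMod 2) := fun i => ser (fun c : Fin l => y i c.rev)
  let α : Fin k → PowerSeries (ZMod 2) :=
    V.adjugate.mulVec (fun i => g * X ^ (m - l - n * k * k) * T i)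
  have hα : ∀ i, ∑ j : Fin k, ser (x i) ^ (j : ℕ) * α j = X ^ (m - l) * T i := by
    intro i
    have h1 : V.mulVec α = fun i => X ^ (m - l) * T i := by
      change V.mulVec (V.adjugate.mulVec _) = _
      rw [Matrix.mulVec_mulVec, Matrix.mul_adjugate, Matrix.smul_mulVec, Matrix.one_mulVec]
      funext i
      rw [Pi.smul_apply, smul_eq_mul, ← mul_assoc, ← mul_assoc, ← hg, ← pow_add]
      congr 2
      omega
    have h2 := congrFun h1 i
    rw [← h2]
    rfl
  refine ⟨fun j (c : Fin m) => coeff (c : ℕ) (α j), fun i c => ?_⟩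
  have hc := c.2
  have hcm : m - 1 - (c : ℕ) < m := by omega
  unfold pval
  rw [map_sum]
  have h1 : ∀ j : Fin k, coeff (m - 1 - (c : ℕ)) (ser (fun c : Fin m => coeff (c : ℕ) (α j)) *
      ser (x i) ^ (j : ℕ)) = coeff (m - 1 - (c : ℕ)) (ser (x i) ^ (j : ℕ) * α j) := by
    intro j
    rw [coeff_trunc_mul m _ _ _ hcm, mul_comm]
  rw [Finset.sum_congr rfl fun j _ => h1 j, ← map_sum, hα i, coeff_X_pow_mul', if_pos (by omega),
    coeff_ser, dif_pos (by omega)]
  congr 1
  apply Fin.ext
  rw [Fin.val_rev]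
  change l - ((m - 1 - (c : ℕ) - (m - l)) + 1) = c
  omega

open Classical in
lemma card_ker {A B : Type*} [AddCommGroup A] [AddCommGroup B] [Fintype A] [Fintype B]
    (f : A →+ B) (hf : Function.Surjective f) :
    (Finset.univ.filter (fun a => f a = 0)).card * Fintype.card B = Fintype.card A := by
  have h1 : ∀ b : B, (Finset.univ.filter (fun a => f a = b)).card =
      (Finset.univ.filter (fun a => f a = 0)).card := by
    intro b
    exact AddMonoidHom.card_fiber_eq_of_mem_range f (hf b) (hf 0)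
  have h2 := Finset.card_eq_sum_card_fiberwise (f := f) (s := Finset.univ) (t := Finset.univ)
    (fun _ _ => Finset.mem_coe.2 (Finset.mem_univ _))
  rw [Finset.card_univ] at h2
  rw [h2, Finset.sum_congr rfl fun b _ => h1 b, Finset.sum_const, Finset.card_univ, smul_eq_mul,
    mul_comm]

end Pool.Agent.JT
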