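import Pool.Agent.JT.Split
import Pool.Agent.JT.Bound

/-! The average-case lower bound for Horn systems. -/

namespace Pool.Agent.JT

open Pool.Agent.SemRO (RectFree Sensitive flip_card even_card mix)

/-- restriction of a Horn system to the first `n` variables -/
def HS.restrict {Q : Type} {N : ℕ} (H : HS Q (Fin N)) (n : ℕ) (base : Fin N → Bool) :
    HS Q (Fin n) where
  ax q := H.ax q ∨ ∃ i : Fin N, n ≤ (i : ℕ) ∧ H.lf i (base i) q
  lf j b q := ∃ h : (j : ℕ) < N, H.lf ⟨j, h⟩ b q
  r1 := H.r1
  r2 := H.r2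
  out := H.out

/-- replace the first `n` bits -/
def paste {N : ℕ} (n : ℕ) (base : Fin N → Bool) (x : Fin n → Bool) : Fin N → Bool :=
  fun i => if h : (i : ℕ) < n then x ⟨i, h⟩ else base i

lemma restrict_complete {Q : Type} {N : ℕ} (H : HS Q (Fin N)) (n : ℕ) (base : Fin N → Bool)
    (x : Fin n → Bool) {q : Q} {l : List (Fin N)} (h : H.PT (paste n base x) q l) :
    ∃ l', (H.restrict n base).PT x q l' ∧ l'.length = l.countP (fun i : Fin N => decide ((i : ℕ) < n)) := by
  induction h with
  | ax h => exact ⟨[], .ax (Or.inl h), rfl⟩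
  | @leaf i q h =>
    by_cases hi : (i : ℕ) < n
    · refine ⟨[⟨i, hi⟩], .leaf ⟨i.2, ?_⟩, ?_⟩
      · have : paste n base x i = x ⟨i, hi⟩ := by simp [paste, hi]
        rw [← this]; exact h
      · simp [hi]
    · refine ⟨[], .ax (Or.inr ⟨i, not_lt.1 hi, ?_⟩), ?_⟩
      · have : paste n base x i = base i := by simp [paste, hi]
        rw [← this]; exact h
      · simp [hi]
  | one h _ ih =>
    obtain ⟨l', h1, h2⟩ := ih
    exact ⟨l', .one h h1, h2⟩
  | two h _ _ ih ih' =>
    obtain ⟨l', h1, h2⟩ := ih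
    obtain ⟨l'', h1', h2'⟩ := ih'
    exact ⟨l' ++ l'', .two h h1 h1', by rw [List.length_append, List.countP_append, h2, h2']⟩

lemma restrict_sound {Q : Type} {N : ℕ} (H : HS Q (Fin N)) (n : ℕ) (base : Fin N → Bool)
    (x : Fin n → Bool) {q : Q} {l' : List (Fin n)} (h : (H.restrict n base).PT x q l') :
    ∃ l, H.PT (paste n base x) q l := by
  induction h with
  | ax h =>
    rcases h with h | ⟨i, hi, h⟩
    · exact ⟨_, .ax h⟩
    · have : paste n base x i = base i := by simp [paste, not_lt.2 hi]
      exact ⟨_, .leaf (by rw [this]; exact h)⟩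
  | @leaf i q h =>
    obtain ⟨hi, h⟩ := h
    have : paste n base x ⟨i, hi⟩ = x i := by simp [paste, i.2]
    exact ⟨_, .leaf (i := ⟨i, hi⟩) (by rw [this]; exact h)⟩
  | one h _ ih => obtain ⟨l, hl⟩ := ih; exact ⟨_, .one h hl⟩
  | two h _ _ ih ih' =>
    obtain ⟨l, hl⟩ := ih
    obtain ⟨l', hl'⟩ := ih'
    exact ⟨_, .two h hl hl'⟩

lemma PT_congr {Q I : Type} {H : HS Q I} {y y' : I → Bool} {q : Q} {l : List I}
    (h : H.PT y q l) (hy : ∀ i ∈ l, y' i = y i) : H.PT y' q l := by
  induction h with
  | ax h => exact .ax h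
  | @leaf i q h => exact .leaf (by rw [hy i (by simp)]; exact h)
  | one h _ ih => exact .one h (ih hy)
  | two h _ _ ih ih' =>
    exact .two h (ih fun i hi => hy i (List.mem_append_left _ hi))
      (ih' fun i hi => hy i (List.mem_append_right _ hi))

/-- every variable is read -/
lemma count_low {N n : ℕ} (hnN : n ≤ N) {l : List (Fin N)} (hall : ∀ i, i ∈ l) :
    l.countP (fun i : Fin N => decide ((i : ℕ) < n)) + (N - n) ≤ l.length := by
  have h1 := List.length_eq_countP_add_countP (fun i : Fin N => decide ((i : ℕ) < n)) (l := l)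
  have h2 : N - n ≤ l.countP (fun i : Fin N => ! decide ((i : ℕ) < n)) := by
    rw [List.countP_eq_length_filter]
    have h3 : (Finset.univ.filter (fun i : Fin N => ¬ (i : ℕ) < n)) ⊆
        (l.filter (fun i : Fin N => ! decide ((i : ℕ) < n))).toFinset := by
      intro i hi
      rw [List.mem_toFinset, List.mem_filter]
      exact ⟨hall i, by simpa using (Finset.mem_filter.1 hi).2⟩
    have h4 : (Finset.univ.filter (fun i : Fin N => ¬ (i : ℕ) < n)).card = N - n := by
      have h5 := Finset.card_filter_add_card_filter_not (s := (Finset.univ : Finset (Fin N)))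
        (fun i => (i : ℕ) < n)
      have h6 : (Finset.univ.filter (fun i : Fin N => (i : ℕ) < n)).card = n := by
        rw [Fin.card_filter_val_lt]
        omega
      rw [h6, Finset.card_univ, Fintype.card_fin] at h5
      omega
    rw [← h4]
    exact (Finset.card_le_card h3).trans (List.toFinset_card_le _)
  have h7 : l.countP (fun i : Fin N => ! decide ((i : ℕ) < n)) =
      l.countP (fun a : Fin N => decide ¬ (decide ((a : ℕ) < n)) = true) := by
    congr 1
    funext i
    by_cases h : (i : ℕ) < n <;> simp [h]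
  omega

end Pool.Agent.JT
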