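import Pool.Agent.JT.Main

/-! The average-case lower bound for Horn systems (continued). -/

namespace Pool.Agent.JT

open Pool.Agent.SemRO (RectFree Sensitive flip_card even_card mix)

lemma param_ineq {n t : ℕ} (hn : 10 ^ 16 ≤ n) (ht : t = 10 ^ 10) :
    n * (2 * t + 1) + (n / (5 * 10 ^ 8) + 2 + n) ≤ n / (5 * 10 ^ 8) * (t * t) := by
  subst ht
  norm_num
  omega

lemma lang_paste_sensitive (k M Δ : ℕ) {N n : ℕ} (hnN : n ≤ N) (base : Fin N → Bool) :
    Sensitive {x : Fin n → Bool | lang k M Δ (List.ofFn (paste n base x))} := by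
  intro x hx i hcon
  have h1 : paste n base (Function.update x i (!x i)) =
      Function.update (paste n base x) ⟨i, by have := i.2; omega⟩
        (!(paste n base x ⟨i, by have := i.2; omega⟩)) := by
    funext j
    by_cases hj : j = ⟨i, by have := i.2; omega⟩
    · subst hj
      simp [paste]
    · rw [Function.update_of_ne hj]
      by_cases hjn : (j : ℕ) < n
      · simp only [paste, dif_pos hjn]
        rw [Function.update_of_ne]
        intro h
        apply hj
        apply Fin.ext
        have := congrArg Fin.val h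
        exact this
      · simp only [paste, dif_neg hjn]
  change lang k M Δ (List.ofFn (paste n base (Function.update x i (!x i)))) at hcon
  rw [h1] at hcon
  exact lang_sensitive k M Δ _ _ hx hcon

lemma paste_unparts {N n k m r : ℕ} (hN : N = n + (k * m + r)) (a : Fin k → Fin m → Bool)
    (b : Fin r → Bool) (x : Fin n → Bool) :
    paste n (unparts hN (fun _ => false, a, b)) x = unparts hN (x, a, b) := by
  funext i
  by_cases h : (i : ℕ) < n
  · simp only [paste, unparts, dif_pos h]
  · simp only [paste, unparts, dif_neg h]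

open Classical in
/-- each good slice contains few inputs with a short proof -/
theorem slice_bound {t M N n r : ℕ} (ht : t = 10 ^ 10) (hn : N / (t * t * M + 2) = n)
    (hn16 : 10 ^ 16 ≤ n)
    (hN : N = n + (t * t * (M * n) + r)) {Q : Type} [Fintype Q] (H : HS Q (Fin N))
    (hsound : ∀ y, (∃ l, H.PT y H.out l) → lang (t * t) M (5 * 10 ^ 8) (List.ofFn y))
    (Sh : Finset (Fin N → Bool)) (ε : ℝ) (hεN : ε * N ≤ 1 / 10 ^ 6 * n)
    (hSh : ∀ y ∈ Sh, ∃ l, H.PT y H.out l ∧ (l.length : ℝ) ≤ (1 + ε) * N)
    (a : Fin (t * t) → Fin (M * n) → Bool) (b : Fin r → Bool)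
    (ha : RectFree {x : Fin n → Bool | HC (n / (5 * 10 ^ 8)) a x} t) :
    (((Finset.univ.filter (fun x : Fin n → Bool => unparts hN (x, a, b) ∈ Sh)).card : ℕ) : ℝ) ≤
      ((Fintype.card Q : ℝ) ^ 200010 * 5 ^ 200010 * (2 * n) ^ 5) *
        Real.exp (n * Real.log 2 - 3.75e-9 * n) := by
  have hnN : n ≤ N := by omega
  set base := unparts hN (fun _ => false, a, b) with hbase
  have hp : ∀ x, paste n base x = unparts hN (x, a, b) := fun x => paste_unparts hN a b x
  refine hs_count hn16 (H.restrict n base)
    {x : Fin n → Bool | lang (t * t) M (5 * 10 ^ 8) (List.ofFn (paste n base x))} ?_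
    (lang_paste_sensitive _ _ _ hnN base) (L := t) (by rw [ht]; positivity) ?_ ?_ _ ?_
  · rintro z ⟨l, hl⟩
    exact hsound _ (restrict_sound H n base z hl)
  · apply ha.mono
    intro x hx
    have hx' : lang (t * t) M (5 * 10 ^ 8) (List.ofFn (paste n base x)) := hx
    rw [hp x, lang_unparts _ _ _ hn hN] at hx'
    exact hx'.2
  · rw [ht]; omega
  · intro z hz
    have hz' : unparts hN (z, a, b) ∈ Sh := (Finset.mem_filter.1 hz).2
    rw [← hp z] at hz'
    obtain ⟨l, hl1, hl2⟩ := hSh _ hz'
    -- all variables are read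
    have hall : ∀ i, i ∈ l := by
      intro i
      by_contra hi
      have h1 := hsound _ ⟨l, hl1⟩
      have h2 := hsound (Function.update (paste n base z) i (!(paste n base z i))) ⟨l,
        PT_congr hl1 fun j hj => Function.update_of_ne (fun h : j = i => hi (h ▸ hj)) _ _⟩
      exact lang_sensitive _ _ _ _ i h1 h2
    obtain ⟨l', h1, h2⟩ := restrict_complete H n base z hl1
    refine ⟨l', h1, ?_⟩
    have h3 := count_low hnN hall
    rw [← h2] at h3
    have h4 : (l'.length : ℝ) + ((N : ℝ) - n) ≤ l.length := by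
      have h5 : ((N - n : ℕ) : ℝ) = (N : ℝ) - n := by rw [Nat.cast_sub hnN]
      rw [← h5]
      exact_mod_cast h3
    have h6 : (1 + ε) * (N : ℝ) = N + ε * N := by ring
    rw [h6] at hl2
    linarith

open Classical in
/-- the language is large -/
theorem lang_card {k M Δ N n r : ℕ} (hk : 0 < k) (hn : N / (k * M + 2) = n)
    (hN : N = n + (k * (M * n) + r)) (hr : 0 < r) (hl : n / Δ ≤ M * n) :
    2 ^ N ≤ 2 ^ (n / Δ + 1) *
      (Finset.univ.filter (fun y : Fin N → Bool => lang k M Δ (List.ofFn y))).card := by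
  set l := n / Δ with hldef
  -- pairs satisfying the hash condition
  set Pr := (Finset.univ.filter (fun p : (Fin n → Bool) × (Fin k → Fin (M * n) → Bool) =>
    HC l p.2 p.1)) with hPr
  have hPrc : Pr.card * 2 ^ l = 2 ^ n * 2 ^ (k * (M * n)) := by
    have h1 : Pr.card = ∑ x : Fin n → Bool,
        (Finset.univ.filter (fun a : Fin k → Fin (M * n) → Bool => HC l a x)).card := by
      rw [hPr, Finset.card_filter, Fintype.sum_prod_type]
      refine Finset.sum_congr rfl fun x _ => ?_
      rw [Finset.card_filter]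
    rw [h1, Finset.sum_mul, Finset.sum_congr rfl fun x _ => count_one hk hl x, Finset.sum_const,
      Finset.card_univ, Fintype.card_fun, Fintype.card_bool, Fintype.card_fin, smul_eq_mul]
  have h2 : Pr.card * 2 ^ r ≤ 2 *
      (Finset.univ.filter (fun y : Fin N → Bool => lang k M Δ (List.ofFn y))).card := by
    -- the words over each pair
    let f : ((Fin n → Bool) × (Fin k → Fin (M * n) → Bool)) → Finset (Fin N → Bool) := fun p =>
      (Finset.univ.filter (fun b : Fin r → Bool =>
        (∑ i : Fin N, (unparts hN (p.1, p.2, b) i).toNat) % 2 = 0)).image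
          (fun b => unparts hN (p.1, p.2, b))
    have hinj : ∀ p : (Fin n → Bool) × (Fin k → Fin (M * n) → Bool),
        Function.Injective (fun b : Fin r → Bool => unparts hN (p.1, p.2, b)) := by
      intro p b b' h
      have := (splitE hN).symm.injective h
      exact congrArg (fun q => q.2.2) this
    have hf : ∀ p, 2 ^ r ≤ 2 * (f p).card := by
      intro p
      simp only [f]
      rw [Finset.card_image_of_injective _ (hinj p)]
      obtain ⟨w, hw⟩ := sum_unparts hN p.1 p.2 (fun _ => false)
      have := half_parity r hr (∑ i, (p.1 i).toNat + w)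
      refine this.trans (Nat.mul_le_mul_left _ (Finset.card_le_card ?_))
      intro b hb
      have hb' := (Finset.mem_filter.1 hb).2
      refine Finset.mem_filter.2 ⟨Finset.mem_univ _, ?_⟩
      rw [hw p.1 b, ← add_assoc]
      exact hb'
    have hdisj : ∀ p ∈ Pr, ∀ p' ∈ Pr, p ≠ p' → Disjoint (f p) (f p') := by
      intro p _ p' _ hne
      rw [Finset.disjoint_left]
      intro y hy hy'
      obtain ⟨b, _, hb⟩ := Finset.mem_image.1 hy
      obtain ⟨b', _, hb'⟩ := Finset.mem_image.1 hy'
      have := (splitE hN).symm.injective (hb.trans hb'.symm)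
      apply hne
      have e1 : p.1 = p'.1 := congrArg (fun q => q.1) this
      have e2 : p.2 = p'.2 := congrArg (fun q => q.2.1) this
      exact Prod.ext e1 e2
    have hsub : Pr.biUnion f ⊆
        Finset.univ.filter (fun y : Fin N → Bool => lang k M Δ (List.ofFn y)) := by
      intro y hy
      obtain ⟨p, hp, hy⟩ := Finset.mem_biUnion.1 hy
      obtain ⟨b, hb, rfl⟩ := Finset.mem_image.1 hy
      refine Finset.mem_filter.2 ⟨Finset.mem_univ _, ?_⟩
      rw [lang_unparts _ _ _ hn hN]
      exact ⟨(Finset.mem_filter.1 hb).2, (Finset.mem_filter.1 hp).2⟩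
    calc Pr.card * 2 ^ r = ∑ p ∈ Pr, 2 ^ r := by rw [Finset.sum_const, smul_eq_mul]
      _ ≤ ∑ p ∈ Pr, 2 * (f p).card := Finset.sum_le_sum fun p _ => hf p
      _ = 2 * (Pr.biUnion f).card := by rw [Finset.card_biUnion hdisj, Finset.mul_sum]
      _ ≤ _ := Nat.mul_le_mul_left _ (Finset.card_le_card hsub)
  calc 2 ^ N = 2 ^ n * 2 ^ (k * (M * n)) * 2 ^ r := by
        rw [← pow_add, ← pow_add]; congr 1; omega
    _ = 2 ^ l * (Pr.card * 2 ^ r) := by rw [← hPrc]; ring
    _ ≤ 2 ^ l * (2 * _) := Nat.mul_le_mul_left _ h2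
    _ = _ := by rw [pow_succ]; ring

end Pool.Agent.JT
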