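import Pool.Agent.JT.Main2

/-! The average-case lower bound for Horn systems (end). -/

namespace Pool.Agent.JT

open Pool.Agent.SemRO (RectFree Sensitive flip_card even_card mix log2_hi)

/-- the bound of `hs_count` -/
noncomputable def BB (q : ℝ) (n : ℕ) : ℝ :=
  (q ^ 200010 * 5 ^ 200010 * (2 * n) ^ 5) * Real.exp (n * Real.log 2 - 3.75e-9 * n)

lemma BB_nonneg {q : ℝ} (_hq : 0 ≤ q) (n : ℕ) : 0 ≤ BB q n := by
  unfold BB; positivity

open Classical in
theorem hs_avg {t M D N : ℕ} (ht : t = 10 ^ 10) (hM : M = t * t * (t * t) + 1)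
    (hD : D = t * t * M + 2) (hND : 10 ^ 16 ≤ N / D) {Q : Type} [Fintype Q] [Nonempty Q]
    (H : HS Q (Fin N))
    (hsound : ∀ y, (∃ l, H.PT y H.out l) → lang (t * t) M (5 * 10 ^ 8) (List.ofFn y))
    (ε : ℝ) (hε : ε = 1 / (4 * D * 10 ^ 14)) (Sh : Finset (Fin N → Bool))
    (hSh : ∀ y ∈ Sh, ∃ l, H.PT y H.out l ∧ (l.length : ℝ) ≤ (1 + ε) * N)
    (hbig : (2 : ℝ) ^ (-(ε * N)) *
      ((Finset.univ.filter (fun y : Fin N → Bool =>
        lang (t * t) M (5 * 10 ^ 8) (List.ofFn y))).card : ℕ) ≤ (Sh.card : ℕ)) :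
    (2 : ℝ) ^ (((N / D : ℕ) : ℝ) / 10 ^ 14) ≤ Fintype.card Q := by
  obtain ⟨n, hn⟩ : ∃ n, n = N / D := ⟨_, rfl⟩
  rw [← hn] at hND ⊢
  have hnD : N / (t * t * M + 2) = n := by rw [← hD, hn]
  have hNn : n * D ≤ N := by rw [hn]; exact Nat.div_mul_le_self _ _
  have hDpos : 0 < D := by omega
  have hNn2 : N ≤ 2 * D * n := by
    have h1 := Nat.lt_div_mul_add hDpos (a := N)
    have h2 : N < N / D * D + D := by
      have := Nat.div_add_mod N D
      have h3 := Nat.mod_lt N hDpos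
      rw [mul_comm] at this
      omega
    rw [← hn] at h2
    have h3 : D ≤ n * D := Nat.le_mul_of_pos_left _ (by omega)
    calc N ≤ n * D + D := h2.le
      _ ≤ n * D + n * D := by omega
      _ = 2 * D * n := by ring
  obtain ⟨r, hr⟩ : ∃ r, r = N - n - t * t * (M * n) := ⟨_, rfl⟩
  have hexp : n * D = n + t * t * (M * n) + n := by rw [hD]; ring
  have hN : N = n + (t * t * (M * n) + r) := by omega
  have hr0 : 0 < r := by omega
  obtain ⟨l, hl⟩ : ∃ l, l = n / (5 * 10 ^ 8) := ⟨_, rfl⟩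
  have hln : l ≤ n := by rw [hl]; exact Nat.div_le_self _ _
  have hlM : l ≤ M * n := hln.trans (Nat.le_mul_of_pos_left _ (by rw [hM]; omega))
  have hmm : n * (t * t) * (t * t) + l ≤ M * n := by
    have : M * n = n * (t * t) * (t * t) + n := by rw [hM]; ring
    omega
  have htt : 0 < t * t := by rw [ht]; norm_num
  have hpar := param_ineq hND ht
  rw [← hl] at hpar
  have hn' : (10 : ℝ) ^ 16 ≤ n := by exact_mod_cast hND
  have hnpos : (0 : ℝ) < n := by linarith [show (0 : ℝ) < 10 ^ 16 by norm_num]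
  have hDr : (0 : ℝ) < D := by exact_mod_cast hDpos
  -- size of ε N
  have hεN : ε * N ≤ n / (2 * 10 ^ 14) := by
    have h1 : (N : ℝ) ≤ 2 * D * n := by exact_mod_cast hNn2
    rw [hε]
    calc 1 / (4 * D * 10 ^ 14) * (N : ℝ) ≤ 1 / (4 * D * 10 ^ 14) * (2 * D * n) :=
          mul_le_mul_of_nonneg_left h1 (by positivity)
      _ = n / (2 * 10 ^ 14) := by field_simp; ring
  have hεN0 : 0 ≤ ε * N := by rw [hε]; positivity
  have hεN' : ε * N ≤ 1 / 10 ^ 6 * n := by linarith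
  -- the language is large
  have hLang := lang_card (Δ := 5 * 10 ^ 8) htt hnD hN hr0 (by rw [← hl]; exact hlM)
  rw [← hl] at hLang
  -- upper bound for Sh
  obtain ⟨B, hB⟩ : ∃ B, B = BB (Fintype.card Q) n := ⟨_, rfl⟩
  have hB0 : 0 ≤ B := by rw [hB]; exact BB_nonneg (Nat.cast_nonneg _) n
  set Bd := Finset.univ.filter (fun a : Fin (t * t) → Fin (M * n) → Bool =>
      ¬ RectFree {x : Fin n → Bool | HC l a x} t) with hBd
  have hbad := bad_seeds t n l (M * n) hmm
  rw [← hBd] at hbad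
  have hShc : (Sh.card : ℝ) ≤ (Bd.card : ℝ) * 2 ^ r * 2 ^ n + 2 ^ (t * t * (M * n)) * 2 ^ r * B := by
    have h1 : Sh.card = ∑ p : (Fin (t * t) → Fin (M * n) → Bool) × (Fin r → Bool),
        (Finset.univ.filter (fun x : Fin n → Bool => unparts hN (x, p.1, p.2) ∈ Sh)).card := by
      have e1 : Sh.card = ∑ y : Fin N → Bool, (if y ∈ Sh then 1 else 0) := by
        rw [← Finset.card_filter]
        congr 1
        ext y; simp
      rw [e1, ← Equiv.sum_comp (splitE hN).symm, Fintype.sum_prod_type, Finset.sum_comm]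
      refine Finset.sum_congr rfl fun p _ => ?_
      rw [Finset.card_filter]
      rfl
    have h2 : (Sh.card : ℝ) = ∑ p : (Fin (t * t) → Fin (M * n) → Bool) × (Fin r → Bool),
        (((Finset.univ.filter (fun x : Fin n → Bool => unparts hN (x, p.1, p.2) ∈ Sh)).card : ℕ) : ℝ) := by
      rw [h1]; push_cast; rfl
    have h3 : ∀ p : (Fin (t * t) → Fin (M * n) → Bool) × (Fin r → Bool),
        (((Finset.univ.filter (fun x : Fin n → Bool => unparts hN (x, p.1, p.2) ∈ Sh)).card : ℕ) : ℝ) ≤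
        (if p.1 ∈ Bd then (2 : ℝ) ^ n else 0) + B := by
      intro p
      by_cases hp : p.1 ∈ Bd
      · rw [if_pos hp]
        have h4 : (Finset.univ.filter (fun x : Fin n → Bool => unparts hN (x, p.1, p.2) ∈ Sh)).card ≤
            2 ^ n := by
          refine (Finset.card_le_univ _).trans ?_
          rw [Fintype.card_fun, Fintype.card_bool, Fintype.card_fin]
        have h5 : (((Finset.univ.filter (fun x : Fin n → Bool =>
            unparts hN (x, p.1, p.2) ∈ Sh)).card : ℕ) : ℝ) ≤ 2 ^ n := by exact_mod_cast h4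
        linarith
      · rw [if_neg hp, zero_add]
        rw [hB]
        refine slice_bound ht hnD hND hN H hsound Sh ε hεN' hSh p.1 p.2 ?_
        rw [← hl]
        by_contra hcon
        exact hp (Finset.mem_filter.2 ⟨Finset.mem_univ _, hcon⟩)
    have h6 : ∑ p : (Fin (t * t) → Fin (M * n) → Bool) × (Fin r → Bool),
        ((if p.1 ∈ Bd then (2 : ℝ) ^ n else 0) + B) =
        (Bd.card : ℝ) * 2 ^ r * 2 ^ n + 2 ^ (t * t * (M * n)) * 2 ^ r * B := by
      rw [Finset.sum_add_distrib]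
      congr 1
      · rw [Fintype.sum_prod_type]
        have : ∀ a : Fin (t * t) → Fin (M * n) → Bool,
            ∑ _b : Fin r → Bool, (if a ∈ Bd then (2 : ℝ) ^ n else 0) =
            if a ∈ Bd then 2 ^ r * (2 : ℝ) ^ n else 0 := by
          intro a
          rw [Finset.sum_const, Finset.card_univ, Fintype.card_fun, Fintype.card_bool,
            Fintype.card_fin, nsmul_eq_mul]
          push_cast
          split_ifs <;> simp
        rw [Finset.sum_congr rfl fun a _ => this a, ← Finset.sum_filter]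
        rw [Finset.filter_mem_eq_inter, Finset.univ_inter, Finset.sum_const, nsmul_eq_mul]
        ring
      · rw [Finset.sum_const, Finset.card_univ, Fintype.card_prod, nsmul_eq_mul]
        congr 1
        rw [Fintype.card_fun, Fintype.card_fun, Fintype.card_fun, Fintype.card_bool,
          Fintype.card_fin, Fintype.card_fin, Fintype.card_fin, ← pow_mul]
        push_cast
        rw [mul_comm (M * n) (t * t)]
    rw [h2, ← h6]
    exact Finset.sum_le_sum fun p _ => h3 p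
  -- combine
  set E : ℝ := (2 : ℝ) ^ (-(ε * N)) with hE
  have hEpos : 0 < E := by positivity
  have hE1 : 1 ≤ E * 2 ^ n := by
    rw [hE, ← Real.rpow_natCast 2 n, ← Real.rpow_add (by norm_num)]
    apply Real.one_le_rpow (by norm_num)
    linarith
  have hLr : (2 : ℝ) ^ N ≤ 2 ^ (l + 1) * ((Finset.univ.filter (fun y : Fin N → Bool =>
        lang (t * t) M (5 * 10 ^ 8) (List.ofFn y))).card : ℕ) := by exact_mod_cast hLang
  have hbr : (Bd.card : ℝ) * 2 ^ (l * (t * t)) ≤ 2 ^ (n * (2 * t + 1)) * 2 ^ (t * t * (M * n)) := by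
    exact_mod_cast hbad
  have hNpow : (2 : ℝ) ^ N = 2 ^ n * (2 ^ (t * t * (M * n)) * 2 ^ r) := by
    rw [← pow_add, ← pow_add, ← hN]
  -- E 2^N ≤ 2^(l+1) Sh
  have hc1 : E * 2 ^ N ≤ 2 ^ (l + 1) * Sh.card := by
    calc E * 2 ^ N ≤ E * (2 ^ (l + 1) * ((Finset.univ.filter (fun y : Fin N → Bool =>
        lang (t * t) M (5 * 10 ^ 8) (List.ofFn y))).card : ℕ)) :=
          mul_le_mul_of_nonneg_left hLr hEpos.le
      _ = 2 ^ (l + 1) * (E * ((Finset.univ.filter (fun y : Fin N → Bool =>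
        lang (t * t) M (5 * 10 ^ 8) (List.ofFn y))).card : ℕ)) := by ring
      _ ≤ 2 ^ (l + 1) * Sh.card := mul_le_mul_of_nonneg_left hbig (by positivity)
  -- the bad part
  have hc2 : 2 ^ (l + 2) * ((Bd.card : ℝ) * 2 ^ r * 2 ^ n) ≤ E * 2 ^ N := by
    have e1 : (2 : ℝ) ^ (n * (2 * t + 1)) * 2 ^ (l + 2 + n) ≤ 2 ^ (l * (t * t)) := by
      rw [← pow_add]
      exact pow_le_pow_right₀ (by norm_num) (by omega)
    have e2 : (Bd.card : ℝ) * 2 ^ (l + 2 + n) ≤ 2 ^ (t * t * (M * n)) := by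
      have hpos : (0 : ℝ) < 2 ^ (n * (2 * t + 1)) := by positivity
      have e3 : (Bd.card : ℝ) * 2 ^ (l + 2 + n) * 2 ^ (n * (2 * t + 1)) ≤
          2 ^ (t * t * (M * n)) * 2 ^ (n * (2 * t + 1)) := by
        calc (Bd.card : ℝ) * 2 ^ (l + 2 + n) * 2 ^ (n * (2 * t + 1))
            = Bd.card * (2 ^ (n * (2 * t + 1)) * 2 ^ (l + 2 + n)) := by ring
          _ ≤ Bd.card * 2 ^ (l * (t * t)) := mul_le_mul_of_nonneg_left e1 (Nat.cast_nonneg _)
          _ ≤ 2 ^ (n * (2 * t + 1)) * 2 ^ (t * t * (M * n)) := hbr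
          _ = _ := by ring
      exact le_of_mul_le_mul_right e3 hpos
    rw [hNpow]
    calc 2 ^ (l + 2) * ((Bd.card : ℝ) * 2 ^ r * 2 ^ n)
        = (Bd.card * 2 ^ (l + 2 + n)) * 2 ^ r := by rw [pow_add 2 (l + 2) n]; ring
      _ ≤ 2 ^ (t * t * (M * n)) * 2 ^ r := mul_le_mul_of_nonneg_right e2 (by positivity)
      _ = 1 * (2 ^ (t * t * (M * n)) * 2 ^ r) := by ring
      _ ≤ (E * 2 ^ n) * (2 ^ (t * t * (M * n)) * 2 ^ r) :=
          mul_le_mul_of_nonneg_right hE1 (by positivity)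
      _ = _ := by ring
  have hc3 : E * 2 ^ N ≤ 2 ^ (l + 2) * (2 ^ (t * t * (M * n)) * 2 ^ r * B) := by
    have e1 : 2 * (E * 2 ^ N) ≤ 2 ^ (l + 2) * Sh.card := by
      calc 2 * (E * 2 ^ N) ≤ 2 * (2 ^ (l + 1) * Sh.card) :=
            mul_le_mul_of_nonneg_left hc1 (by norm_num)
        _ = _ := by rw [pow_succ 2 (l + 1)]; ring
    have e2 : 2 ^ (l + 2) * (Sh.card : ℝ) ≤ 2 ^ (l + 2) *
        ((Bd.card : ℝ) * 2 ^ r * 2 ^ n + 2 ^ (t * t * (M * n)) * 2 ^ r * B) :=
      mul_le_mul_of_nonneg_left hShc (by positivity)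
    rw [mul_add] at e2
    linarith
  have hc4 : E * 2 ^ n ≤ 2 ^ (l + 2) * B := by
    rw [hNpow] at hc3
    have hpos : (0 : ℝ) < 2 ^ (t * t * (M * n)) * 2 ^ r := by positivity
    apply le_of_mul_le_mul_right _ hpos
    calc E * 2 ^ n * (2 ^ (t * t * (M * n)) * 2 ^ r) = E * (2 ^ n * (2 ^ (t * t * (M * n)) * 2 ^ r)) := by
          ring
      _ ≤ _ := hc3
      _ = _ := by ring
  have hqpos : (0 : ℝ) < Fintype.card Q := by exact_mod_cast Fintype.card_pos
  have l2 := log2_hi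
  have hl2 : 0 < Real.log 2 := Real.log_pos (by norm_num)
  refine numeric_lower hND hqpos (g := E * 2 ^ n / 2 ^ (l + 2)) ?_ ?_
  · rw [le_div_iff₀ (by positivity), hE, Real.rpow_def_of_pos (by norm_num)]
    have e1 : (2 : ℝ) ^ (l + 2) = Real.exp ((l + 2 : ℕ) * Real.log 2) := by
      rw [Real.exp_nat_mul, Real.exp_log (by norm_num)]
    have e2 : (2 : ℝ) ^ n = Real.exp (n * Real.log 2) := by
      rw [Real.exp_nat_mul, Real.exp_log (by norm_num)]
    rw [e1, e2, ← Real.exp_add, ← Real.exp_add]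
    apply Real.exp_le_exp.mpr
    have hlr : (l : ℝ) ≤ 2e-9 * n := by
      have h1 : 5 * 10 ^ 8 * l ≤ n := by rw [hl]; exact Nat.mul_div_le _ _
      have : (5 * 10 ^ 8 : ℝ) * l ≤ n := by exact_mod_cast h1
      linarith
    have e3 : ((l : ℝ) + 2) * Real.log 2 ≤ (2e-9 * n + 2) * 0.6932 :=
      mul_le_mul (by linarith) l2.le hl2.le (by linarith)
    have e4 : Real.log 2 * (ε * N) ≤ 0.6932 * (n / (2 * 10 ^ 14)) :=
      mul_le_mul l2.le hεN hεN0 (by norm_num)
    push_cast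
    linarith
  · rw [div_le_iff₀ (by positivity)]
    change E * 2 ^ n ≤ BB (Fintype.card Q) n * 2 ^ (l + 2)
    rw [← hB, mul_comm B]
    exact hc4

end Pool.Agent.JT
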