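import Mathlib

/-! The final asymptotic inequality. -/

namespace Pool.Agent.JT

open Filter

lemma final_numeric (D : ℕ) (hD : 0 < D) : ∀ᶠ N : ℕ in atTop, ∀ S : ℕ,
    (2 : ℝ) ^ (((N / D : ℕ) : ℝ) / 10 ^ 14) ≤ 2 * ((N : ℝ) + S) →
    (2 : ℝ) ^ (1 / (4 * D * 10 ^ 14) * (N : ℝ)) ≤ S := by
  have hDr : (0 : ℝ) < D := by exact_mod_cast hD
  set c : ℝ := 1 / (4 * D * 10 ^ 14) with hc
  have hcpos : 0 < c := by positivity
  set β : ℝ := 2 * c * Real.log 2 with hβ
  have hlog : 0 < Real.log 2 := Real.log_pos (by norm_num)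
  have hβpos : 0 < β := by positivity
  have hev : ∀ᶠ N : ℕ in atTop, 2 * (D : ℝ) ≤ N ∧ 8 / β ^ 2 ≤ (N : ℝ) ∧ 6 / β ≤ (N : ℝ) := by
    have h1 := tendsto_natCast_atTop_atTop (R := ℝ)
    exact (h1.eventually_ge_atTop _).and ((h1.eventually_ge_atTop _).and (h1.eventually_ge_atTop _))
  filter_upwards [hev] with N hN S hS
  obtain ⟨h1, h2, h3⟩ := hN
  have hNpos : (0 : ℝ) < N := by linarith
  have hdiv : 2 * c * N ≤ ((N / D : ℕ) : ℝ) / 10 ^ 14 := by
    have e1 : (N : ℝ) ≤ D * ((N / D : ℕ) : ℝ) + D := by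
      have := Nat.lt_div_mul_add hD (a := N)
      have e2 : N ≤ D * (N / D) + D := by
        have := Nat.div_add_mod N D
        have := Nat.mod_lt N hD
        omega
      exact_mod_cast e2
    have e3 : (N : ℝ) / (2 * D) ≤ ((N / D : ℕ) : ℝ) := by
      rw [div_le_iff₀ (by positivity)]
      nlinarith
    have e4 : 2 * c * N = ((N : ℝ) / (2 * D)) / 10 ^ 14 := by
      rw [hc]; field_simp; ring
    rw [e4]
    exact div_le_div_of_nonneg_right e3 (by positivity)
  set u : ℝ := (2 : ℝ) ^ (c * (N : ℝ)) with hu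
  have hu2 : u ^ 2 ≤ 2 * (N + S) := by
    refine le_trans (le_of_eq ?_) ((Real.rpow_le_rpow_of_exponent_le (by norm_num) hdiv).trans hS)
    rw [hu, ← Real.rpow_natCast, ← Real.rpow_mul (by norm_num)]
    congr 1
    push_cast
    ring
  have hexp : u ^ 2 = Real.exp (β * N) := by
    rw [hu, ← Real.rpow_natCast, ← Real.rpow_mul (by norm_num), Real.rpow_def_of_pos (by norm_num)]
    congr 1
    rw [hβ]
    push_cast
    ring
  have hupos : 0 < u := by positivity
  have hu4 : 4 ≤ u := by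
    have e1 : u = Real.exp (β * N / 2) := by
      rw [hu, Real.rpow_def_of_pos (by norm_num)]
      congr 1
      rw [hβ]; ring
    have e2 := Real.add_one_le_exp (β * N / 2)
    have e3 : 6 ≤ β * N := by
      rw [div_le_iff₀ hβpos] at h3
      linarith
    rw [e1]; linarith
  have hu5 : 4 * (N : ℝ) ≤ u ^ 2 := by
    have e1 := Real.quadratic_le_exp_of_nonneg (x := β * N) (by positivity)
    have e2 : 8 ≤ β ^ 2 * N := by
      rw [div_le_iff₀ (by positivity)] at h2
      linarith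
    have e3 : 4 * (N : ℝ) ≤ (β * N) ^ 2 / 2 := by
      have : (β * N) ^ 2 / 2 = (β ^ 2 * N) * N / 2 := by ring
      rw [this]
      nlinarith
    rw [hexp]
    have : 0 ≤ β * (N : ℝ) := by positivity
    linarith
  nlinarith

end Pool.Agent.JT
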