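import Pool.Agent.JT.LangDefs
import Pool.Agent.JT.Hash
import Pool.Agent.Lib.PolyTime.PF

/-! The explicit language is decidable in polynomial time, and its description by power series. -/

namespace Pool.Agent.JT

open Pool.Agent.PolyTime PowerSeries

section ptime

variable (k M : ℕ)

lemma pf_blk {α : Type} [Ctx α] : PF (fun w (_ : α) => blk k M w) :=
  PF.div PF.len (PF.const (k * M + 2))

lemma pf_xb {α : Type} [Ctx α] {A : List Bool → α → ℕ} (hA : PF A) :
    PF (fun w a => xb k M w (A w a)) :=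
  PF.ite (PD.lt hA (pf_blk k M)) (PF.inp hA) (PF.const 0)

lemma pf_ab (j : ℕ) {α : Type} [Ctx α] {A : List Bool → α → ℕ} (hA : PF A) :
    PF (fun w a => ab k M w j (A w a)) :=
  PF.ite (PD.lt hA ((PF.const M).mul (pf_blk k M)))
    (PF.inp (((pf_blk k M).add ((PF.const j).mul ((PF.const M).mul (pf_blk k M)))).add hA))
    (PF.const 0)

lemma pf_pw (j : ℕ) : ∀ {α : Type} [Ctx α] {A : List Bool → α → ℕ}, PF A →
    PF (fun w a => pw k M w j (A w a)) := by
  induction j with
  | zero =>
    intro α _ A hA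
    exact PF.ite (PD.eq hA (PF.const 0)) (PF.const 1) (PF.const 0)
  | succ j ih =>
    intro α _ A hA
    have h1 : PF (fun w (p : α × ℕ) => xb k M w p.2 * pw k M w j (A w p.1 - p.2)) :=
      (pf_xb k M PF.snd).mul (ih (hA.fst.sub PF.snd))
    exact ((PF.sum (hA.add (PF.const 1)) h1).mod (PF.const 2))

lemma pf_finsum {α : Type} [Ctx α] (G : ℕ → List Bool → α → ℕ) (hG : ∀ j, PF (G j)) (K : ℕ) :
    PF (fun w a => ∑ j ∈ Finset.range K, G j w a) := by
  induction K with
  | zero => exact (PF.const 0).congr fun w a => by simp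
  | succ K ih => exact (ih.add (hG K)).congr fun w a => by rw [Finset.sum_range_succ]

lemma pf_vl {α : Type} [Ctx α] {A : List Bool → α → ℕ} (hA : PF A) :
    PF (fun w a => vl k M w (A w a)) := by
  have h1 : ∀ j, PF (fun w a => ∑ i ∈ Finset.range (A w a + 1),
      ab k M w j i * pw k M w j (A w a - i)) := by
    intro j
    have h2 : PF (fun w (p : α × ℕ) => ab k M w j p.2 * pw k M w j (A w p.1 - p.2)) :=
      (pf_ab k M j PF.snd).mul (pf_pw k M j (hA.fst.sub PF.snd))
    exact PF.sum (hA.add (PF.const 1)) h2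
  exact (pf_finsum (fun j w a => ∑ i ∈ Finset.range (A w a + 1),
      ab k M w j i * pw k M w j (A w a - i)) h1 k).mod (PF.const 2)

lemma pd_lang (Δ : ℕ) : PD (fun w (_ : Unit) => lang k M Δ w) := by
  have h1 : PF (fun w (_ : Unit) => ∑ i ∈ Finset.range w.length, (w.getD i false).toNat) :=
    PF.sum PF.len (PF.inp PF.snd)
  have h2 : PF (fun w (p : Unit × ℕ) => vl k M w (M * blk k M w - 1 - p.2)) :=
    pf_vl k M ((((PF.const M).mul (pf_blk k M)).sub (PF.const 1)).sub PF.snd)
  have h3 : PD (fun w (_ : Unit) => ∀ c < blk k M w / Δ,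
      vl k M w (M * blk k M w - 1 - c) = 0) :=
    PD.forall_lt (PF.div (pf_blk k M) (PF.const Δ)) (PD.eq h2 (PF.const 0))
  exact (PD.eq (h1.mod (PF.const 2)) (PF.const 0)).and h3

theorem lang_polyTime (k M Δ : ℕ) : Nonempty (Turing.TM2ComputableInPolyTime
    (id : List Bool → List Bool) (id : List Bool → List Bool)
    (fun w => [decide (lang k M Δ w)])) := by
  apply PFBits.polyTime
  refine ⟨fun _ => 1, fun w _ => if lang k M Δ w then 1 else 0, PF.const 1, ?_, ?_⟩
  · exact PF.ite (P := fun w (_ : Unit × ℕ) => lang k M Δ w)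
      (PD.congr (PD.fst (α := Unit) (pd_lang k M Δ)) (fun _ _ => Iff.rfl))
      (PF.const 1) (PF.const 0)
  · intro w
    by_cases h : lang k M Δ w <;> simp [h]

end ptime

section series

variable {k M Δ n : ℕ} {w : List Bool}

lemma cast_toNat (b : Bool) : ((b.toNat : ℕ) : ZMod 2) = zb b := by
  cases b <;> simp [zb]

lemma cast_xb (hn : blk k M w = n) (x : Fin n → Bool)
    (hx : ∀ i : Fin n, w.getD i false = x i) (i : ℕ) :
    ((xb k M w i : ℕ) : ZMod 2) = coeff i (ser (fun i => zb (x i))) := by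
  rw [coeff_ser]
  unfold xb
  rw [hn]
  by_cases h : i < n
  · rw [if_pos h, dif_pos h, cast_toNat, ← hx ⟨i, h⟩]
  · rw [if_neg h, dif_neg h, Nat.cast_zero]

lemma cast_ab (hn : blk k M w = n) (a : Fin k → Fin (M * n) → Bool)
    (ha : ∀ (j : Fin k) (i : Fin (M * n)), w.getD (n + j * (M * n) + i) false = a j i)
    (j : Fin k) (i : ℕ) :
    ((ab k M w j i : ℕ) : ZMod 2) = coeff i (ser (fun i => zb (a j i))) := by
  rw [coeff_ser]
  unfold ab
  rw [hn]
  by_cases h : i < M * n
  · rw [if_pos h, dif_pos h, cast_toNat, ← ha j ⟨i, h⟩]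
  · rw [if_neg h, dif_neg h, Nat.cast_zero]

lemma cast_pw (hn : blk k M w = n) (x : Fin n → Bool)
    (hx : ∀ i : Fin n, w.getD i false = x i) (j c : ℕ) :
    ((pw k M w j c : ℕ) : ZMod 2) = coeff c (ser (fun i => zb (x i)) ^ j) := by
  induction j generalizing c with
  | zero =>
    rw [pow_zero, coeff_one, pw]
    split_ifs <;> simp
  | succ j ih =>
    rw [pow_succ', coeff_mul, Finset.Nat.sum_antidiagonal_eq_sum_range_succ_mk, pw,
      ZMod.natCast_mod, Nat.cast_sum]
    refine Finset.sum_congr rfl fun i _ => ?_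
    rw [Nat.cast_mul, ih, cast_xb hn x hx]

lemma cast_vl (hn : blk k M w = n) (x : Fin n → Bool) (a : Fin k → Fin (M * n) → Bool)
    (hx : ∀ i : Fin n, w.getD i false = x i)
    (ha : ∀ (j : Fin k) (i : Fin (M * n)), w.getD (n + j * (M * n) + i) false = a j i) (c : ℕ) :
    ((vl k M w c : ℕ) : ZMod 2) =
      coeff c (pval (fun j i => zb (a j i)) (fun i => zb (x i))) := by
  unfold vl pval
  rw [ZMod.natCast_mod, Nat.cast_sum, map_sum, Finset.sum_range]
  refine Finset.sum_congr rfl fun j _ => ?_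
  rw [coeff_mul, Finset.Nat.sum_antidiagonal_eq_sum_range_succ_mk, Nat.cast_sum]
  refine Finset.sum_congr rfl fun i _ => ?_
  rw [Nat.cast_mul, cast_pw hn x hx, cast_ab hn a ha]

theorem lang_iff (k M Δ n : ℕ) (w : List Bool) (hn : blk k M w = n) (x : Fin n → Bool)
    (a : Fin k → Fin (M * n) → Bool) (hx : ∀ i : Fin n, w.getD i false = x i)
    (ha : ∀ (j : Fin k) (i : Fin (M * n)), w.getD (n + j * (M * n) + i) false = a j i) :
    lang k M Δ w ↔ (∑ i ∈ Finset.range w.length, (w.getD i false).toNat) % 2 = 0 ∧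
      ∀ c < n / Δ, PowerSeries.coeff (M * n - 1 - c)
        (pval (fun j i => zb (a j i)) (fun i => zb (x i))) = 0 := by
  unfold lang
  rw [hn]
  have h : ∀ c, vl k M w c = 0 ↔ coeff c (pval (fun j i => zb (a j i)) (fun i => zb (x i))) = 0 := by
    intro c
    rw [← cast_vl hn x a hx ha c, ZMod.natCast_eq_zero_iff]
    have h2 : vl k M w c < 2 := Nat.mod_lt _ (by norm_num)
    constructor
    · intro h; rw [h]; exact dvd_zero 2
    · intro h
      obtain ⟨q, hq⟩ := h
      omega
  simp only [h]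

end series

end Pool.Agent.JT
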