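import Pool.Agent.JT.Slice

/-! Splitting a word into `x`, the coefficients `a` and the rest `b`. -/

namespace Pool.Agent.JT

open Pool.Agent.SemRO (RectFree Sensitive flip_card even_card mix)

section split

variable {N n k m r : ℕ}

lemma idx_lt (hN : N = n + (k * m + r)) (j : Fin k) (i : Fin m) :
    n + (j : ℕ) * m + i < N := by
  have hj := j.2
  have hi := i.2
  have : (j : ℕ) * m + i < k * m := by
    calc (j : ℕ) * m + i < (j : ℕ) * m + m := by omega
      _ = (j + 1) * m := by ring
      _ ≤ k * m := Nat.mul_le_mul_right _ hj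
  omega

/-- the three parts of a word -/
def parts (hN : N = n + (k * m + r)) (y : Fin N → Bool) :
    (Fin n → Bool) × (Fin k → Fin m → Bool) × (Fin r → Bool) :=
  (fun i => y ⟨i, by have := i.2; omega⟩, fun j i => y ⟨n + (j : ℕ) * m + i, idx_lt hN j i⟩,
    fun s => y ⟨n + k * m + s, by have := s.2; omega⟩)

/-- a word from its parts -/
def unparts (_hN : N = n + (k * m + r))
    (p : (Fin n → Bool) × (Fin k → Fin m → Bool) × (Fin r → Bool)) : Fin N → Bool :=
  fun i => if h1 : (i : ℕ) < n then p.1 ⟨i, h1⟩ else
    if h2 : ((i : ℕ) - n) / m < k ∧ ((i : ℕ) - n) % m < m then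
      p.2.1 ⟨((i : ℕ) - n) / m, h2.1⟩ ⟨((i : ℕ) - n) % m, h2.2⟩ else
    if h3 : (i : ℕ) - (n + k * m) < r then p.2.2 ⟨(i : ℕ) - (n + k * m), h3⟩ else false

lemma div_mod_aux (j : Fin k) (i : Fin m) (w : ℕ) (hw : w = n + (j : ℕ) * m + i) :
    (w - n) / m = j ∧ (w - n) % m = i := by
  have hm : 0 < m := by have := i.2; omega
  have e1 : w - n = i + m * j := by
    rw [hw]
    have : n + (j : ℕ) * m + i - n = (j : ℕ) * m + i := by omega
    rw [this]; ring
  constructor
  · rw [e1, Nat.add_mul_div_left _ _ hm, Nat.div_eq_of_lt i.2]; omega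
  · rw [e1, Nat.add_mul_mod_self_left, Nat.mod_eq_of_lt i.2]

/-- the splitting is a bijection -/
def splitE (hN : N = n + (k * m + r)) :
    (Fin N → Bool) ≃ (Fin n → Bool) × (Fin k → Fin m → Bool) × (Fin r → Bool) where
  toFun := parts hN
  invFun := unparts hN
  left_inv := by
    intro y
    funext i
    simp only [unparts, parts]
    split_ifs with h1 h2 h3
    · rfl
    · congr 1
      apply Fin.ext
      have hm : 0 < m := by omega
      have := Nat.div_add_mod ((i : ℕ) - n) m
      have e : ((i : ℕ) - n) / m * m = m * (((i : ℕ) - n) / m) := mul_comm _ _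
      change n + ((i : ℕ) - n) / m * m + ((i : ℕ) - n) % m = i
      omega
    · congr 1
      apply Fin.ext
      change n + k * m + ((i : ℕ) - (n + k * m)) = i
      have : n + k * m ≤ i := by
        by_contra hcon
        apply h2
        have hlt : (i : ℕ) - n < k * m := by omega
        have hm : 0 < m := by
          rcases Nat.eq_zero_or_pos m with h | h
          · subst h; simp at hlt
          · exact h
        exact ⟨(Nat.div_lt_iff_lt_mul hm).2 hlt, Nat.mod_lt _ hm⟩
      omega
    · exfalso
      have hi := i.2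
      have hlt : (i : ℕ) - n < k * m ∨ n + k * m ≤ i := by omega
      rcases hlt with hlt | hlt
      · apply h2
        have hm : 0 < m := by
          rcases Nat.eq_zero_or_pos m with h | h
          · subst h; simp at hlt
          · exact h
        exact ⟨(Nat.div_lt_iff_lt_mul hm).2 hlt, Nat.mod_lt _ hm⟩
      · omega
  right_inv := by
    rintro ⟨x, a, b⟩
    refine Prod.ext ?_ (Prod.ext ?_ ?_)
    · funext i
      simp only [unparts, parts]
      rw [dif_pos i.2]
    · funext j i
      obtain ⟨e1, e2⟩ := div_mod_aux (n := n) j i _ rfl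
      simp only [unparts, parts]
      rw [dif_neg (by omega), dif_pos (by rw [e1, e2]; exact ⟨j.2, i.2⟩)]
      congr 1
      · congr 1
      · exact Fin.ext e2
    · funext s
      simp only [unparts, parts]
      rw [dif_neg (by omega), dif_neg, dif_pos (by have := s.2; omega)]
      · congr 1
        apply Fin.ext
        change n + k * m + (s : ℕ) - (n + k * m) = s
        omega
      · rintro ⟨h, h'⟩
        have hm : 0 < m := by omega
        rw [Nat.div_lt_iff_lt_mul hm] at h
        omega

lemma sum_unparts (hN : N = n + (k * m + r)) (x : Fin n → Bool) (a : Fin k → Fin m → Bool)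
    (b : Fin r → Bool) : ∃ w : ℕ, (∀ x' : Fin n → Bool, ∀ b' : Fin r → Bool,
      ∑ i : Fin N, (unparts hN (x', a, b') i).toNat =
        ∑ i, (x' i).toNat + (w + ∑ s, (b' s).toNat)) := by
  let G : (Fin n → Bool) → (Fin r → Bool) → ℕ → ℕ := fun x' b' i =>
    if h : i < N then (unparts hN (x', a, b') ⟨i, h⟩).toNat else 0
  refine ⟨∑ i ∈ Finset.Ico n (n + k * m), G x b i, fun x' b' => ?_⟩
  have h0 : ∑ i : Fin N, (unparts hN (x', a, b') i).toNat = ∑ i ∈ Finset.range N, G x' b' i := by
    rw [← Fin.sum_univ_eq_sum_range]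
    refine Finset.sum_congr rfl fun i _ => ?_
    simp only [G]
    rw [dif_pos i.2]
  have h1 : ∑ i : Fin n, (x' i).toNat = ∑ i ∈ Finset.range n, G x' b' i := by
    rw [← Fin.sum_univ_eq_sum_range]
    refine Finset.sum_congr rfl fun i _ => ?_
    have := i.2
    simp only [G, unparts]
    rw [dif_pos (by omega), dif_pos i.2]
  have h2 : ∑ s : Fin r, (b' s).toNat = ∑ i ∈ Finset.Ico (n + k * m) N, G x' b' i := by
    rw [Finset.sum_Ico_eq_sum_range, show N - (n + k * m) = r by omega, ← Fin.sum_univ_eq_sum_range]
    refine Finset.sum_congr rfl fun s _ => ?_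
    have hs := s.2
    simp only [G]
    rw [dif_pos (by omega)]
    have h3 := congrArg (fun p => p.2.2 s) ((splitE hN).right_inv (x', a, b'))
    simp only [splitE, parts] at h3
    exact congrArg Bool.toNat h3.symm
  have h3 : ∑ i ∈ Finset.Ico n (n + k * m), G x b i = ∑ i ∈ Finset.Ico n (n + k * m), G x' b' i := by
    refine Finset.sum_congr rfl fun i hi => ?_
    obtain ⟨hi1, hi2⟩ := Finset.mem_Ico.1 hi
    have hlt : i - n < k * m := by omega
    have hm : 0 < m := by
      rcases Nat.eq_zero_or_pos m with h | h
      · subst h; simp at hlt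
      · exact h
    have hd : (i - n) / m < k ∧ (i - n) % m < m :=
      ⟨(Nat.div_lt_iff_lt_mul hm).2 hlt, Nat.mod_lt _ hm⟩
    have hiN : i < N := by omega
    have hni : ¬ i < n := by omega
    simp only [G, unparts]
    rw [dif_pos hiN, dif_pos hiN, dif_neg hni, dif_neg hni, dif_pos hd, dif_pos hd]
  rw [h0, h1, h2, h3, ← Finset.sum_range_add_sum_Ico _ (show n ≤ N by omega),
    ← Finset.sum_Ico_consecutive _ (show n ≤ n + k * m by omega) (show n + k * m ≤ N by omega)]

end split

/-- the language in terms of the parts -/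
theorem lang_unparts (k M Δ : ℕ) {N n r : ℕ} (hn : N / (k * M + 2) = n)
    (hN : N = n + (k * (M * n) + r)) (x : Fin n → Bool) (a : Fin k → Fin (M * n) → Bool)
    (b : Fin r → Bool) :
    lang k M Δ (List.ofFn (unparts hN (x, a, b))) ↔
      (∑ i : Fin N, (unparts hN (x, a, b) i).toNat) % 2 = 0 ∧ HC (n / Δ) a x := by
  have hp := (splitE hN).right_inv (x, a, b)
  have hlen : (List.ofFn (unparts hN (x, a, b))).length = N := List.length_ofFn
  rw [lang_iff k M Δ n _ (by unfold blk; rw [hlen, hn]) x a, sum_ofFn]
  · exact Iff.rfl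
  · intro i
    rw [ofFn_getD _ _ (by have := i.2; omega)]
    exact congrFun (congrArg Prod.fst hp) i
  · intro j i
    rw [ofFn_getD _ _ (idx_lt hN j i)]
    exact congrFun (congrFun (congrArg (fun p => p.2.1) hp) j) i

open Classical in
/-- half of the words have each parity -/
lemma half_parity (r : ℕ) (hr : 0 < r) (c : ℕ) :
    2 ^ r ≤ 2 * (Finset.univ.filter (fun b : Fin r → Bool => (c + ∑ s, (b s).toNat) % 2 = 0)).card := by
  have h0 := even_card r hr
  have h1 : ∀ b : Fin r → Bool, Even (Finset.univ.filter (fun i => b i = true)).card ↔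
      (∑ s, (b s).toNat) % 2 = 0 := fun b => evenW_iff b
  rcases Nat.mod_two_eq_zero_or_one c with hc | hc
  · refine h0.trans (Nat.mul_le_mul_left _ (Finset.card_le_card ?_))
    intro b hb
    have := (h1 b).1 (Finset.mem_filter.1 hb).2
    exact Finset.mem_filter.2 ⟨Finset.mem_univ _, by omega⟩
  · refine h0.trans (Nat.mul_le_mul_left _ ?_)
    let i0 : Fin r := ⟨0, hr⟩
    apply Finset.card_le_card_of_injOn (fun x => Function.update x i0 (!x i0))
    · intro b hb
      have hb' := (Finset.mem_filter.mp (Finset.mem_coe.1 hb)).2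
      have h2 : ¬ Even (Finset.univ.filter (fun j => Function.update b i0 (!b i0) j = true)).card := by
        rw [flip_card, not_not]
        exact hb'
      rw [h1] at h2
      refine Finset.mem_coe.mpr (Finset.mem_filter.mpr ⟨Finset.mem_univ _, ?_⟩)
      change (c + ∑ s, (Function.update b i0 (!b i0) s).toNat) % 2 = 0
      omega
    · intro x _ y _ hxy
      simp only at hxy
      funext j
      by_cases hj : j = i0
      · subst hj
        have := congrFun hxy i0
        simpa using this
      · have := congrFun hxy j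
        rwa [Function.update_of_ne hj, Function.update_of_ne hj] at this

end Pool.Agent.JT
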